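import Mathlib

/-!
The configuration `x + y = z`, `y = t * x` is Ramsey partition regular, and even with the infinite
set `H`, all the sums and all the ratios in one and the same colour class.
The proof uses an additively idempotent ultrafilter on the positive integers.
-/

open Filter

namespace MP94.KThree

attribute [local instance] Ultrafilter.addSemigroup Ultrafilter.add

/-- There is an additively idempotent ultrafilter on the positive integers. -/
lemma exists_idem : ∃ e : Ultrafilter ℕ+, e + e = e :=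
  exists_idempotent_of_compact_t2_of_continuous_add_left
    (fun r => Ultrafilter.continuous_add_left r)

/-- Every member of the colour set is divisible by any given number. -/
lemma idem_dvd (e : Ultrafilter ℕ+) (he : e + e = e) (m : ℕ+) :
    ∀ᶠ x in (e : Filter ℕ+), m ∣ x := by
  have hm : NeZero (m : ℕ) := ⟨m.ne_zero⟩
  have h1 : ∀ᶠ x : ℕ+ in (e : Filter ℕ+), ∃ r : ZMod (m : ℕ), ((x : ℕ) : ZMod (m : ℕ)) = r :=
    Eventually.of_forall (fun x => ⟨_, rfl⟩)
  rw [Ultrafilter.eventually_exists_iff] at h1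
  obtain ⟨r, hr⟩ := h1
  have h2 : ∀ᶠ x : ℕ+ in (e : Filter ℕ+), ∀ᶠ y : ℕ+ in (e : Filter ℕ+),
      (((x + y : ℕ+) : ℕ) : ZMod (m : ℕ)) = r := by
    have h3 : ∀ᶠ x : ℕ+ in ((e + e : Ultrafilter ℕ+) : Filter ℕ+),
        ((x : ℕ) : ZMod (m : ℕ)) = r := by rw [he]; exact hr
    exact h3
  obtain ⟨x, hx1, hx2⟩ := (hr.and h2).exists
  obtain ⟨y, hy1, hy2⟩ := (hr.and hx2).exists
  have h4 : r + r = r := by
    rw [PNat.add_coe, Nat.cast_add, hx1, hy1] at hy2
    exact hy2
  have h5 : r = 0 := by simpa using h4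
  filter_upwards [hr] with z hz
  rw [PNat.dvd_iff, ← ZMod.natCast_eq_zero_iff, hz, h5]

/-- For every finite colouring of the positive integers there are a colour `i` and an infinite set
`H` of that colour such that for all `x < y` in `H` both `x + y` and the (exact) quotient `y / x`
exist and have colour `i` as well. -/
theorem sumRatio (r : ℕ) (c : ℕ+ → Fin r) :
    ∃ (i : Fin r) (H : Set ℕ+), H.Infinite ∧ (∀ h ∈ H, c h = i) ∧
      ∀ x ∈ H, ∀ y ∈ H, x < y → ∃ z t : ℕ+, c z = i ∧ c t = i ∧ x + y = z ∧ y = t * x := by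
  obtain ⟨e, he⟩ := exists_idem
  have hdvd := idem_dvd e he
  -- large
  have hlt : ∀ n : ℕ+, ∀ᶠ x in (e : Filter ℕ+), n < x := by
    intro n
    filter_upwards [hdvd (n + 1)] with x hx
    exact lt_of_lt_of_le (PNat.lt_add_right n 1) (PNat.le_of_dvd hx)
  -- colours of quotients
  have hq : ∀ a : ℕ+, ∃ C : Fin r, ∀ᶠ b in (e : Filter ℕ+), c (PNat.divExact b a) = C := by
    intro a
    rw [← Ultrafilter.eventually_exists_iff]
    exact Eventually.of_forall (fun x => ⟨_, rfl⟩)
  obtain ⟨C, hC⟩ : ∃ C : Fin r, ∀ᶠ a in (e : Filter ℕ+), ∀ᶠ b in (e : Filter ℕ+),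
      c (PNat.divExact b a) = C := by
    rw [← Ultrafilter.eventually_exists_iff]
    exact Eventually.of_forall hq
  obtain ⟨D, hD⟩ := hC.exists
  -- the large set
  set B : Set ℕ+ := {b | D ∣ b ∧ c (PNat.divExact b D) = C} with hB
  have hBe : ∀ᶠ b in (e : Filter ℕ+), b ∈ B := by
    filter_upwards [hdvd D, hD] with b h1 h2 using ⟨h1, h2⟩
  have hBB : ∀ᶠ u in (e : Filter ℕ+), ∀ᶠ b in (e : Filter ℕ+), u + b ∈ B := by
    have h3 : ∀ᶠ x in ((e + e : Ultrafilter ℕ+) : Filter ℕ+), x ∈ B := by rw [he]; exact hBe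
    exact h3
  obtain ⟨f, hf1, hf2⟩ := exists_seq_of_forall_finset_exists
    (P := fun u : ℕ+ => u ∈ B ∧ (∀ᶠ b in (e : Filter ℕ+), u + b ∈ B) ∧
      (∀ᶠ b in (e : Filter ℕ+), c (PNat.divExact b u) = C))
    (r := fun u v : ℕ+ => u < v ∧ u ∣ v ∧ u + v ∈ B ∧ c (PNat.divExact v u) = C) (by
      intro s hs
      have h1 : ∀ᶠ y in (e : Filter ℕ+), ∀ x ∈ s,
          (x < y ∧ x ∣ y ∧ x + y ∈ B ∧ c (PNat.divExact y x) = C) := by
        rw [Filter.eventually_all_finset]
        intro x hx
        obtain ⟨-, h2, h3⟩ := hs x hx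
        filter_upwards [hlt x, hdvd x, h2, h3] with y a1 a2 a3 a4 using ⟨a1, a2, a3, a4⟩
      obtain ⟨y, hy⟩ := ((hBe.and (hBB.and hC)).and h1).exists
      exact ⟨y, hy.1, hy.2⟩)
  have hmono : StrictMono f := strictMono_nat_of_lt_succ (fun n => (hf2 n (n + 1) (Nat.lt_succ_self n)).1)
  have hfd : ∀ n, D * PNat.divExact (f n) D = f n := fun n => PNat.mul_div_exact (hf1 n).1.1
  have hgmono : StrictMono (fun n => PNat.divExact (f n) D) := by
    intro m n hmn
    have h1 := hmono hmn
    rw [← hfd m, ← hfd n] at h1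
    exact lt_of_mul_lt_mul_left' h1
  refine ⟨C, Set.range (fun n => PNat.divExact (f n) D), Set.infinite_range_of_injective
    hgmono.injective, ?_, ?_⟩
  · rintro _ ⟨n, rfl⟩
    exact (hf1 n).1.2
  · rintro _ ⟨m, rfl⟩ _ ⟨n, rfl⟩ hlt'
    have hmn : m < n := hgmono.lt_iff_lt.mp hlt'
    obtain ⟨-, h2, h3, h4⟩ := hf2 m n hmn
    refine ⟨PNat.divExact (f m + f n) D, PNat.divExact (f n) (f m), h3.2, h4, ?_, ?_⟩
    · have h5 : D * PNat.divExact (f m + f n) D = f m + f n := PNat.mul_div_exact h3.1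
      have h6 : D * (PNat.divExact (f m) D + PNat.divExact (f n) D) =
          D * PNat.divExact (f m + f n) D := by
        rw [h5, mul_add, hfd, hfd]
      exact mul_left_cancel h6
    · have h7 : f m * PNat.divExact (f n) (f m) = f n := PNat.mul_div_exact h2
      have h8 : D * PNat.divExact (f n) D =
          D * (PNat.divExact (f n) (f m) * PNat.divExact (f m) D) := by
        rw [hfd, mul_left_comm, hfd, mul_comm, h7]
      exact mul_left_cancel h8

end MP94.KThree
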