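import Mathlib

/-!
The configuration `-x + y = z`, `y = t * x` is not Ramsey partition regular: there is a finite
colouring of the positive integers such that no infinite set `H` at all (of one colour or not) and
no colour class `C` satisfy: for all `x < y` in `H`, `x` divides `y` and both `y - x` and `y / x`
lie in `C`.
-/

open Filter Topology

namespace MP94.KTwo

/-- The least prime not dividing `x`. -/
noncomputable def lp (x : ℕ) : ℕ := sInf {p | p.Prime ∧ ¬ p ∣ x}

/-- The fractional part of the binary logarithm of `x`. -/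
noncomputable def fr (x : ℕ) : ℝ := Int.fract (Real.logb 2 x)

/-- The largest divisor of `x` all of whose prime factors exceed `q`. -/
noncomputable def rough (q x : ℕ) : ℕ := x.factorization.prod fun p k => if q < p then p ^ k else 1

/-- The colouring, with values in a finite type with 32 elements. -/
noncomputable def col (x : ℕ) : Prop × Prop × Prop × Prop × Prop :=
  (Even x, fr x = 0, fr x < 1 / 2, 1 < (lp x : ℝ) * min (fr x) (1 - fr x),
    rough (lp x) x % 4 = 1)

/-! ### Arithmetic of `lp` and `rough` -/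

lemma lp_mem {x : ℕ} (hx : x ≠ 0) : (lp x).Prime ∧ ¬ lp x ∣ x := by
  have hne : {p | p.Prime ∧ ¬ p ∣ x}.Nonempty := by
    obtain ⟨p, hp, hpp⟩ := Nat.exists_infinite_primes (x + 1)
    exact ⟨p, hpp, fun hd => by
      have := Nat.le_of_dvd (Nat.pos_of_ne_zero hx) hd
      omega⟩
  exact Nat.sInf_mem hne

lemma lp_le {x p : ℕ} (hp : p.Prime) (hd : ¬ p ∣ x) : lp x ≤ p := Nat.sInf_le ⟨hp, hd⟩

lemma dvd_of_lt_lp {x p : ℕ} (hp : p.Prime) (hlt : p < lp x) : p ∣ x := by
  by_contra h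
  exact absurd (lp_le hp h) (not_le.mpr hlt)

lemma rough_mul (q : ℕ) {a b : ℕ} (ha : a ≠ 0) (hb : b ≠ 0) :
    rough q (a * b) = rough q a * rough q b := by
  unfold rough
  rw [Nat.factorization_mul ha hb]
  apply Finsupp.prod_add_index'
  · intro p
    simp
  · intro p k l
    split_ifs
    · exact pow_add p k l
    · simp

lemma rough_eq_self {q n : ℕ} (hn : n ≠ 0) (h : ∀ p, p.Prime → p ∣ n → q < p) :
    rough q n = n := by
  unfold rough
  conv_rhs => rw [← Nat.prod_factorization_pow_eq_self hn]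
  apply Finsupp.prod_congr
  intro p hp
  have hp' : p ∈ n.primeFactors := by simpa using hp
  rw [if_pos (h p (Nat.prime_of_mem_primeFactors hp') (Nat.dvd_of_mem_primeFactors hp'))]

lemma rough_eq_one {q n : ℕ} (h : ∀ p, p.Prime → p ∣ n → p ≤ q) :
    rough q n = 1 := by
  unfold rough Finsupp.prod
  apply Finset.prod_eq_one
  intro p hp
  have hp' : p ∈ n.primeFactors := by simpa using hp
  exact if_neg (not_lt.mpr (h p (Nat.prime_of_mem_primeFactors hp')
    (Nat.dvd_of_mem_primeFactors hp')))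

lemma rough_odd {q n : ℕ} (hq : 2 ≤ q) : Odd (rough q n) := by
  unfold rough Finsupp.prod
  apply Finset.prod_induction _ (fun m => Odd m)
  · intro a b ha hb
    exact ha.mul hb
  · exact odd_one
  · intro p hp
    have hp' : p ∈ n.primeFactors := by simpa using hp
    show Odd (if q < p then p ^ n.factorization p else 1)
    split_ifs with hqp
    · exact ((Nat.prime_of_mem_primeFactors hp').odd_of_ne_two (by omega)).pow
    · exact odd_one

/-! ### Fractional parts -/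

lemma fr_nonneg (x : ℕ) : 0 ≤ fr x := Int.fract_nonneg _

lemma fr_lt_one (x : ℕ) : fr x < 1 := Int.fract_lt_one _

lemma fr_of_eq {x : ℕ} {n : ℤ} {u : ℝ} (h : Real.logb 2 x = n + u) (h0 : 0 ≤ u) (h1 : u < 1) :
    fr x = u := by
  unfold fr
  rw [Int.fract_eq_iff]
  exact ⟨h0, h1, n, by rw [h]; ring⟩

lemma logb_eq (x : ℕ) : Real.logb 2 x = (⌊Real.logb 2 x⌋ : ℤ) + fr x := by
  unfold fr
  exact (Int.floor_add_fract _).symm

lemma logb_div {x t : ℕ} (hx : 0 < x) (ht : 0 < t) :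
    Real.logb 2 t = Real.logb 2 ((x * t : ℕ) : ℝ) - Real.logb 2 x := by
  push_cast
  rw [Real.logb_mul (by positivity) (by positivity)]
  ring

/-- The distance of the logarithm to the nearest integer is small for quotients. -/
lemma min_fr_le {x t : ℕ} (hx : 0 < x) (ht : 0 < t) :
    min (fr t) (1 - fr t) ≤ |fr (x * t) - fr x| := by
  unfold fr
  rw [← abs_sub_round_eq_min]
  have h1 := logb_div hx ht
  have h2 := logb_eq (x * t)
  have h3 := logb_eq x
  unfold fr at h2 h3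
  refine le_trans (round_le (Real.logb 2 t) (⌊Real.logb 2 ((x * t : ℕ) : ℝ)⌋ - ⌊Real.logb 2 (x : ℝ)⌋)) ?_
  apply le_of_eq
  congr 1
  rw [h1]
  push_cast
  push_cast at h2
  linarith

lemma logb_sub {x : ℕ} {η : ℝ} (hη : 0 < η) :
    ∃ N : ℕ, ∀ y : ℕ, N < y → x < y ∧ Real.logb 2 y - η < Real.logb 2 ((y - x : ℕ) : ℝ) := by
  have h2 : (2 : ℝ) ^ (-η) < 1 := Real.rpow_lt_one_of_one_lt_of_neg (by norm_num) (by linarith)
  have h3 : (0 : ℝ) < (2 : ℝ) ^ (-η) := Real.rpow_pos_of_pos (by norm_num) _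
  obtain ⟨N, hN⟩ := exists_nat_gt ((x : ℝ) / (1 - (2 : ℝ) ^ (-η)))
  refine ⟨max N x, fun y hy => ?_⟩
  have hxy : x < y := lt_of_le_of_lt (le_max_right _ _) hy
  have hNy : N < y := lt_of_le_of_lt (le_max_left _ _) hy
  have hy0 : (0 : ℝ) < y := by
    have : 0 < y := by omega
    exact_mod_cast this
  refine ⟨hxy, ?_⟩
  have h4 : (x : ℝ) / (1 - (2 : ℝ) ^ (-η)) < y := lt_trans hN (by exact_mod_cast hNy)
  rw [div_lt_iff₀ (by linarith)] at h4
  have h5 : (y : ℝ) * (2 : ℝ) ^ (-η) < ((y - x : ℕ) : ℝ) := by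
    rw [Nat.cast_sub hxy.le]
    nlinarith
  have h6 : Real.logb 2 y - η = Real.logb 2 ((y : ℝ) * (2 : ℝ) ^ (-η)) := by
    rw [Real.logb_mul (by positivity) (by positivity), Real.logb_rpow (by norm_num) (by norm_num)]
    ring
  rw [h6]
  exact Real.logb_lt_logb (by norm_num) (by positivity) h5

lemma logb_sub_lt {x y : ℕ} (hx : 0 < x) (hxy : x < y) :
    Real.logb 2 ((y - x : ℕ) : ℝ) < Real.logb 2 y := by
  apply Real.logb_lt_logb (by norm_num)
  · have : 0 < y - x := by omega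
    exact_mod_cast this
  · have : y - x < y := by omega
    exact_mod_cast this

/-! ### The ultrafilter argument -/

section main

variable (V : Ultrafilter ℕ) (hV : ∀ N, ∀ᶠ x in (V : Filter ℕ), N < x)
  (h : ∀ᶠ x in (V : Filter ℕ), ∀ᶠ y in (V : Filter ℕ), x ∣ y ∧ col (y - x) = col (y / x))

include hV h

/-- A normalised form of the hypothesis. -/
lemma hyp : ∀ᶠ x in (V : Filter ℕ), ∀ᶠ y in (V : Filter ℕ), 0 < x ∧ x < y ∧
    ∃ t, 1 < t ∧ y = x * t ∧ col (y - x) = col t := by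
  filter_upwards [h, hV 0] with x hx h0
  filter_upwards [hx, hV x] with y hy h1
  obtain ⟨⟨t, ht⟩, hc⟩ := hy
  refine ⟨h0, h1, t, ?_, ht, ?_⟩
  · by_contra h2
    have : t = 0 ∨ t = 1 := by omega
    rcases this with rfl | rfl <;> omega
  · rw [hc, ht, Nat.mul_div_cancel_left t h0]

omit h in
lemma hmod (N : ℕ) (hN : N ≠ 0) : ∀ᶠ x in (V : Filter ℕ), ∀ᶠ y in (V : Filter ℕ), N ∣ y - x := by
  have hne : NeZero N := ⟨hN⟩
  have h1 : ∀ᶠ x : ℕ in (V : Filter ℕ), ∃ r : ZMod N, (x : ZMod N) = r :=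
    Eventually.of_forall (fun x => ⟨_, rfl⟩)
  rw [Ultrafilter.eventually_exists_iff] at h1
  obtain ⟨r, hr⟩ := h1
  filter_upwards [hr] with x hx
  filter_upwards [hr, hV x] with y hy hxy
  rw [← ZMod.natCast_eq_zero_iff, Nat.cast_sub hxy.le, hx, hy, sub_self]

lemma parity : ∀ᶠ x in (V : Filter ℕ), ∀ᶠ y in (V : Filter ℕ), 2 * x ∣ y := by
  filter_upwards [hyp V hV h] with x hx
  filter_upwards [hx] with y hy
  obtain ⟨h0, h1, t, ht, rfl, hc⟩ := hy
  have hpar : Even (x * t - x) ↔ Even t := by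
    have := congrArg Prod.fst hc
    simpa [col] using this
  rcases Nat.even_or_odd t with he | ho
  · obtain ⟨s, rfl⟩ := he
    exact ⟨s, by ring⟩
  · exfalso
    have hev : Even (x * t - x) := by
      obtain ⟨s, rfl⟩ := ho
      refine ⟨x * s, ?_⟩
      have : x * (2 * s + 1) = x * s + x * s + x := by ring
      omega
    exact (Nat.not_even_iff_odd.mpr ho) (hpar.mp hev)

omit hV h in
lemma lemA {p : ℕ} (hp : ∀ᶠ x in (V : Filter ℕ), ∀ᶠ y in (V : Filter ℕ), p * x ∣ y) (k : ℕ) :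
    ∀ᶠ x in (V : Filter ℕ), p ^ k ∣ x := by
  induction k with
  | zero => simp
  | succ k ih =>
    obtain ⟨x, hx1, hx2⟩ := (ih.and hp).exists
    filter_upwards [hx2] with y hy
    refine dvd_trans ?_ hy
    rw [pow_succ, mul_comm]
    exact mul_dvd_mul_left p hx1

/-- Powers of two: the limit of the fractional part is irrelevant here. -/
lemma not_pow : ¬ ∀ᶠ x in (V : Filter ℕ), fr x = 0 := by
  intro h0
  obtain ⟨x, ⟨hx0, hx1⟩, hx2⟩ := ((h0.and (hV 0)).and (hyp V hV h)).exists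
  obtain ⟨N, hN⟩ := logb_sub (x := x) (η := 1) one_pos
  obtain ⟨y, ⟨hy0, hy1⟩, hy2⟩ := ((h0.and hx2).and (hV N)).exists
  obtain ⟨-, hxy, t, ht, rfl, hc⟩ := hy1
  have hN' := (hN _ hy2).2
  have hlt := logb_sub_lt hx1 hxy
  have hc2 : (fr (x * t - x) = 0) ↔ (fr t = 0) := by
    have := congrArg (fun c => c.2.1) hc
    simpa [col] using this
  have hft : fr t = 0 := by
    apply fr_of_eq (n := ⌊Real.logb 2 ((x * t : ℕ) : ℝ)⌋ - ⌊Real.logb 2 (x : ℝ)⌋) _ le_rfl one_pos
    have e1 := logb_div hx1 (show 0 < t by omega)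
    have e2 := logb_eq x
    have e3 := logb_eq (x * t)
    rw [hx0] at e2
    rw [hy0] at e3
    push_cast at e1 e3 ⊢
    linarith
  have hfz := hc2.mpr hft
  have h1 := logb_eq (x * t - x)
  have h2 := logb_eq (x * t)
  rw [hfz, add_zero] at h1
  rw [hy0, add_zero] at h2
  rw [h1, h2] at hN' hlt
  have h3 : ⌊Real.logb 2 ((x * t : ℕ) : ℝ)⌋ - 1 < ⌊Real.logb 2 ((x * t - x : ℕ) : ℝ)⌋ := by
    exact_mod_cast hN'
  have h4 : ⌊Real.logb 2 ((x * t - x : ℕ) : ℝ)⌋ < ⌊Real.logb 2 ((x * t : ℕ) : ℝ)⌋ := by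
    exact_mod_cast hlt
  omega

lemma not_plus (hlim : Tendsto fr (V : Filter ℕ) (𝓝 0))
    (hpos : ∀ᶠ x in (V : Filter ℕ), fr x ≠ 0) : False := by
  have hsmall : ∀ᶠ x in (V : Filter ℕ), fr x < 1 / 2 :=
    hlim.eventually (gt_mem_nhds (by norm_num))
  obtain ⟨x, ⟨⟨hx0, hx1⟩, hx2⟩, hx3⟩ :=
    (((hpos.and (hV 0)).and (hyp V hV h)).and hsmall).exists
  have hx0' : 0 < fr x := lt_of_le_of_ne (fr_nonneg x) (Ne.symm hx0)
  have hyx : ∀ᶠ y in (V : Filter ℕ), fr y < fr x := hlim.eventually (gt_mem_nhds hx0')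
  have h2k := lemA V (parity V hV h) x
  obtain ⟨y, ⟨⟨⟨hy0, hy1⟩, hy2⟩, hy3⟩⟩ := (((hpos.and hx2).and hyx).and h2k).exists
  obtain ⟨-, hxy, t, ht, rfl, hc⟩ := hy1
  have hc3 : (fr (x * t - x) < 1 / 2) ↔ (fr t < 1 / 2) := by
    have := congrArg (fun c => c.2.2.1) hc
    simpa [col] using this
  have hy0' : 0 < fr (x * t) := lt_of_le_of_ne (fr_nonneg _) (Ne.symm hy0)
  -- the quotient
  have hft : fr t = 1 + fr (x * t) - fr x := by
    apply fr_of_eq (n := ⌊Real.logb 2 ((x * t : ℕ) : ℝ)⌋ - ⌊Real.logb 2 (x : ℝ)⌋ - 1)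
    · rw [logb_div hx1 (by omega)]
      conv_lhs => rw [logb_eq x, logb_eq (x * t)]
      push_cast
      ring
    · linarith
    · linarith
  -- the difference
  set n := Nat.log 2 (x * t) with hn
  have hfloor : ⌊Real.logb 2 ((x * t : ℕ) : ℝ)⌋ = (n : ℤ) := by
    have := Real.floor_logb_natCast (b := 2) (r := ((x * t : ℕ) : ℝ)) (by positivity)
    rw [Nat.cast_ofNat] at this
    rw [this, Int.log_natCast]
  have hlog := logb_eq (x * t)
  rw [hfloor] at hlog
  have hxt : x * t ≠ 0 := by positivity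
  have hle : 2 ^ n ≤ x * t := Nat.pow_log_le_self 2 hxt
  have hne : 2 ^ n ≠ x * t := by
    intro he
    apply hy0
    apply fr_of_eq (n := (n : ℤ)) (u := 0) _ le_rfl one_pos
    rw [← he]
    push_cast
    rw [Real.logb_pow, Real.logb_self_eq_one (by norm_num)]
    ring
  have hkn : x ≤ n := Nat.le_log_of_pow_le (by norm_num) (Nat.le_of_dvd (by positivity) hy3)
  have hd : 2 ^ x ∣ x * t - 2 ^ n := Nat.dvd_sub hy3 (pow_dvd_pow 2 hkn)
  have hge : 2 ^ x ≤ x * t - 2 ^ n := Nat.le_of_dvd (by omega) hd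
  have hx2x : x < 2 ^ x := Nat.lt_two_pow_self
  have hz : 2 ^ n < x * t - x := by omega
  have hlogz : (n : ℝ) < Real.logb 2 ((x * t - x : ℕ) : ℝ) := by
    rw [Real.lt_logb_iff_rpow_lt (by norm_num) (by
      have : 0 < x * t - x := by omega
      exact_mod_cast this)]
    rw [Real.rpow_natCast]
    exact_mod_cast hz
  have hlogz2 := logb_sub_lt hx1 hxy
  have hfz : fr (x * t - x) = Real.logb 2 ((x * t - x : ℕ) : ℝ) - n := by
    apply fr_of_eq (n := (n : ℤ))
    · push_cast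
      ring
    · linarith
    · have := fr_lt_one (x * t)
      push_cast at hlog hlogz2 ⊢
      linarith
  have : fr (x * t - x) < 1 / 2 := by
    rw [hfz]
    push_cast at hlog hlogz2 ⊢
    linarith
  have h5 := hc3.mp this
  linarith

lemma not_minus (hlim : Tendsto fr (V : Filter ℕ) (𝓝 1)) : False := by
  have hbig : ∀ᶠ x in (V : Filter ℕ), 3 / 4 < fr x :=
    hlim.eventually (lt_mem_nhds (by norm_num))
  obtain ⟨x, ⟨⟨hx0, hx1⟩, hx2⟩⟩ := ((hbig.and (hV 0)).and (hyp V hV h)).exists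
  have hyx : ∀ᶠ y in (V : Filter ℕ), fr x < fr y := hlim.eventually (lt_mem_nhds (fr_lt_one x))
  obtain ⟨N, hN⟩ := logb_sub (x := x) (η := 1 / 4) (by norm_num)
  obtain ⟨y, ⟨⟨hy0, hy1⟩, hy2⟩, hy3⟩ := (((hbig.and hx2).and hyx).and (hV N)).exists
  obtain ⟨-, hxy, t, ht, rfl, hc⟩ := hy1
  have hc3 : (fr (x * t - x) < 1 / 2) ↔ (fr t < 1 / 2) := by
    have := congrArg (fun c => c.2.2.1) hc
    simpa [col] using this
  have hN' := (hN _ hy3).2
  have hlt := logb_sub_lt hx1 hxy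
  have h1 := fr_lt_one (x * t)
  have hft : fr t = fr (x * t) - fr x := by
    apply fr_of_eq (n := ⌊Real.logb 2 ((x * t : ℕ) : ℝ)⌋ - ⌊Real.logb 2 (x : ℝ)⌋)
    · rw [logb_div hx1 (by omega)]
      conv_lhs => rw [logb_eq x, logb_eq (x * t)]
      push_cast
      ring
    · linarith
    · linarith
  have hlog := logb_eq (x * t)
  have hfz : fr (x * t - x) =
      Real.logb 2 ((x * t - x : ℕ) : ℝ) - ⌊Real.logb 2 ((x * t : ℕ) : ℝ)⌋ := by
    apply fr_of_eq (n := ⌊Real.logb 2 ((x * t : ℕ) : ℝ)⌋)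
    · ring
    · linarith
    · linarith
  have h2 := hc3.mpr (by rw [hft]; linarith)
  linarith

lemma not_mid {φ : ℝ} (hlim : Tendsto fr (V : Filter ℕ) (𝓝 φ)) (h0 : 0 < φ) (h1 : φ < 1)
    {p : ℕ} (hp : p.Prime)
    (hpn : ∀ᶠ x in (V : Filter ℕ), ∀ᶠ y in (V : Filter ℕ), ¬ p * x ∣ y) : False := by
  set η := min φ (1 - φ) with hη
  have hηpos : 0 < η := lt_min h0 (by linarith)
  have hη1 : η ≤ φ := min_le_left _ _
  have hη2 : η ≤ 1 - φ := min_le_right _ _
  have hp0 : (0 : ℝ) < p := by exact_mod_cast hp.pos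
  have hnear : ∀ ε : ℝ, 0 < ε → ∀ᶠ x in (V : Filter ℕ), |fr x - φ| < ε := by
    intro ε hε
    have := hlim.eventually (Metric.ball_mem_nhds φ hε)
    simpa [Metric.mem_ball, Real.dist_eq] using this
  obtain ⟨N, hN⟩ := exists_nat_gt (2 / η)
  obtain ⟨x, ⟨⟨⟨hx1, hx2⟩, hx3⟩, hx4⟩⟩ := (((hV 0).and (hyp V hV h)).and
    ((hnear (1 / (4 * p)) (by positivity)).and hpn)).and
      (hmod V hV N.factorial (Nat.factorial_ne_zero N)) |>.exists
  obtain ⟨hx3, hx5⟩ := hx3
  obtain ⟨M, hM⟩ := logb_sub (x := x) (η := η / 4) (by positivity)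
  obtain ⟨y, ⟨⟨⟨⟨hy1, hy2⟩, hy3⟩, hy4⟩, hy5⟩, hy6⟩ := (((((hx2.and hx4).and hx5).and
    (hnear (1 / (4 * p)) (by positivity))).and (hnear (η / 4) (by positivity))).and (hV M)).exists
  obtain ⟨-, hxy, t, ht, rfl, hc⟩ := hy1
  have hc4 : (1 < (lp (x * t - x) : ℝ) * min (fr (x * t - x)) (1 - fr (x * t - x))) ↔
      (1 < (lp t : ℝ) * min (fr t) (1 - fr t)) := by
    have := congrArg (fun c => c.2.2.2.1) hc
    simpa [col] using this
  -- the quotient
  have hpt : ¬ p ∣ t := by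
    rintro ⟨s, rfl⟩
    exact hy3 ⟨s, by ring⟩
  have hlpt : (lp t : ℝ) ≤ p := by exact_mod_cast lp_le hp hpt
  have hmt : min (fr t) (1 - fr t) ≤ 1 / (2 * p) := by
    refine le_trans (min_fr_le hx1 (by omega)) ?_
    have e1 : fr (x * t) - fr x = (fr (x * t) - φ) - (fr x - φ) := by ring
    rw [e1]
    refine le_trans (abs_sub _ _) ?_
    have e2 : 1 / (2 * (p : ℝ)) = 1 / (4 * p) + 1 / (4 * p) := by
      field_simp
      norm_num
    rw [e2]
    exact add_le_add hy4.le hx3.le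
  have hmt0 : 0 ≤ min (fr t) (1 - fr t) :=
    le_min (fr_nonneg t) (by linarith [fr_lt_one t])
  have hnot : ¬ (1 < (lp t : ℝ) * min (fr t) (1 - fr t)) := by
    rw [not_lt]
    calc (lp t : ℝ) * min (fr t) (1 - fr t) ≤ p * (1 / (2 * p)) :=
          mul_le_mul hlpt hmt hmt0 hp0.le
      _ = 1 / 2 := by field_simp
      _ ≤ 1 := by norm_num
  -- the difference
  have hM' := (hM _ hy6).2
  have hlt := logb_sub_lt hx1 hxy
  have hlog := logb_eq (x * t)
  rw [abs_lt] at hy5
  have hfz : fr (x * t - x) =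
      Real.logb 2 ((x * t - x : ℕ) : ℝ) - ⌊Real.logb 2 ((x * t : ℕ) : ℝ)⌋ := by
    apply fr_of_eq (n := ⌊Real.logb 2 ((x * t : ℕ) : ℝ)⌋)
    · ring
    · linarith [hy5.1, hy5.2]
    · linarith [hy5.1, hy5.2]
  have hmz : η / 2 ≤ min (fr (x * t - x)) (1 - fr (x * t - x)) := by
    rw [hfz]
    apply le_min
    · linarith [hy5.1, hy5.2]
    · linarith [hy5.1, hy5.2]
  have hz0 : x * t - x ≠ 0 := by omega
  have hlpz : N < lp (x * t - x) := by
    by_contra hle
    rw [not_lt] at hle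
    obtain ⟨hpr, hnd⟩ := lp_mem hz0
    exact hnd (dvd_trans (hpr.dvd_factorial.mpr hle) hy2)
  have hyes : 1 < (lp (x * t - x) : ℝ) * min (fr (x * t - x)) (1 - fr (x * t - x)) := by
    have h5 : (N : ℝ) < lp (x * t - x) := by exact_mod_cast hlpz
    have h6 : 2 / η < lp (x * t - x) := lt_trans hN h5
    calc (1 : ℝ) = (2 / η) * (η / 2) := by field_simp
      _ < (lp (x * t - x) : ℝ) * (η / 2) := by
          apply mul_lt_mul_of_pos_right h6 (by positivity)
      _ ≤ _ := by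
          apply mul_le_mul_of_nonneg_left hmz
          positivity
  exact hnot (hc4.mp hyes)

lemma not_all (hall : ∀ p : ℕ, p.Prime →
    ∀ᶠ x in (V : Filter ℕ), ∀ᶠ y in (V : Filter ℕ), p * x ∣ y) : False := by
  -- every number divides almost every member
  have hdiv : ∀ N : ℕ, N ≠ 0 → ∀ᶠ x in (V : Filter ℕ), N ∣ x := by
    intro N
    induction N using induction_on_primes with
    | zero => intro h0; exact absurd rfl h0
    | one => intro _; simp
    | prime_mul p a hp ih =>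
      intro hne
      have ha : a ≠ 0 := right_ne_zero_of_mul hne
      obtain ⟨x, hx1, hx2⟩ := ((ih ha).and (hall p hp)).exists
      filter_upwards [hx2] with y hy
      exact dvd_trans (mul_dvd_mul_left p hx1) hy
  -- comparison for far away `y`
  have key : ∀ᶠ x in (V : Filter ℕ), ∀ᶠ y in (V : Filter ℕ),
      (rough (lp x) x % 4 = 1 ↔ ¬ (rough (lp y) y % 4 = 1)) := by
    filter_upwards [hyp V hV h, hdiv 2 two_ne_zero, hV 0] with x hx hx2 hx0
    have hxne : x ≠ 0 := hx0.ne'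
    obtain ⟨hqp, hqx⟩ := lp_mem hxne
    filter_upwards [hx, hdiv (x * (4 * x.factorial * lp x))
      (by
        have := Nat.factorial_ne_zero x
        have := hqp.ne_zero
        positivity)] with y hy hyd
    obtain ⟨-, hxy, t, ht, rfl, hc⟩ := hy
    have hc5 : (rough (lp (x * t - x)) (x * t - x) % 4 = 1) ↔ (rough (lp t) t % 4 = 1) := by
      have := congrArg (fun c => c.2.2.2.2) hc
      simpa [col] using this
    have htd : 4 * x.factorial * lp x ∣ t := Nat.dvd_of_mul_dvd_mul_left hx0 hyd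
    have ht4 : 4 ∣ t := dvd_trans (Dvd.intro _ (by ring : 4 * (x.factorial * lp x) = _)) htd
    have htf : x.factorial ∣ t := dvd_trans ⟨4 * lp x, by ring⟩ htd
    have htq : lp x ∣ t := dvd_trans ⟨4 * x.factorial, by ring⟩ htd
    have ht0 : t ≠ 0 := by omega
    -- (A)
    have hiff : ∀ p : ℕ, p.Prime → (p ∣ x * t ↔ p ∣ t) := by
      intro p hp
      constructor
      · intro hpd
        by_cases hle : p ≤ x
        · exact dvd_trans (hp.dvd_factorial.mpr hle) htf
        · rcases hp.dvd_mul.mp hpd with h1 | h1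
          · exact absurd (Nat.le_of_dvd hx0 h1) hle
          · exact h1
      · intro h1
        exact Dvd.dvd.mul_left h1 x
    have hlpA : lp (x * t) = lp t := by
      unfold lp
      congr 1
      ext p
      constructor
      · rintro ⟨h1, h2⟩
        exact ⟨h1, fun h3 => h2 ((hiff p h1).mpr h3)⟩
      · rintro ⟨h1, h2⟩
        exact ⟨h1, fun h3 => h2 ((hiff p h1).mp h3)⟩
    obtain ⟨hQp, hQt⟩ := lp_mem ht0
    have hQx : x < lp t := by
      by_contra hle
      rw [not_lt] at hle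
      exact hQt (dvd_trans (hQp.dvd_factorial.mpr hle) htf)
    have hA : rough (lp (x * t)) (x * t) = rough (lp t) t := by
      rw [hlpA, rough_mul _ hxne ht0, rough_eq_one, one_mul]
      intro p hp hpx
      exact le_trans (Nat.le_of_dvd hx0 hpx) hQx.le
    -- (B)
    have hzeq : x * t - x = x * (t - 1) := by
      rw [Nat.mul_sub, mul_one]
    have hndt : ∀ p : ℕ, p.Prime → p ∣ t → ¬ p ∣ t - 1 := by
      intro p hp h1 h2
      have h3 : p ∣ t - (t - 1) := Nat.dvd_sub h1 h2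
      have h4 : t - (t - 1) = 1 := by omega
      rw [h4] at h3
      exact hp.one_lt.ne' (Nat.dvd_one.mp h3)
    have ht1 : t - 1 ≠ 0 := by omega
    have hznz : x * t - x ≠ 0 := by omega
    have hlpB : lp (x * t - x) = lp x := by
      apply le_antisymm
      · apply lp_le hqp
        rw [hzeq]
        intro h1
        rcases hqp.dvd_mul.mp h1 with h2 | h2
        · exact hqx h2
        · exact hndt _ hqp htq h2
      · obtain ⟨h1, h2⟩ := lp_mem hznz
        apply lp_le h1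
        intro h3
        have h4 : x ∣ x * t - x := ⟨t - 1, hzeq⟩
        exact h2 (dvd_trans h3 h4)
    have hq2 : 2 ≤ lp x := hqp.two_le
    have hB : rough (lp (x * t - x)) (x * t - x) = rough (lp x) x * (t - 1) := by
      rw [hlpB, hzeq, rough_mul _ hxne ht1, rough_eq_self ht1]
      intro p hp hpd
      by_contra hle
      rw [not_lt] at hle
      rcases hle.lt_or_eq with h1 | h1
      · have h2 := dvd_of_lt_lp hp h1
        have h3 : p ∣ t := dvd_trans (hp.dvd_factorial.mpr (Nat.le_of_dvd hx0 h2)) htf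
        exact hndt p hp h3 hpd
      · rw [h1] at hpd
        exact hndt _ hqp htq hpd
    rw [hA, ← hc5, hB]
    have hodd := rough_odd (n := x) hq2
    obtain ⟨s, hs⟩ := ht4
    have ht3 : (t - 1) % 4 = 3 := by omega
    rw [Nat.mul_mod, ht3]
    obtain ⟨u, hu⟩ := hodd
    rw [hu]
    have : u % 2 = 0 ∨ u % 2 = 1 := by omega
    rcases this with h9 | h9
    · have : (2 * u + 1) % 4 = 1 := by omega
      rw [this]
      norm_num
    · have : (2 * u + 1) % 4 = 3 := by omega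
      rw [this]
      norm_num
  rcases V.em (fun x => rough (lp x) x % 4 = 1) with hs | hs
  · obtain ⟨x, hx1, hx2⟩ := (hs.and key).exists
    obtain ⟨y, hy1, hy2⟩ := (hs.and hx2).exists
    exact (hy2.mp hx1) hy1
  · obtain ⟨x, hx1, hx2⟩ := (hs.and key).exists
    obtain ⟨y, hy1, hy2⟩ := (hs.and hx2).exists
    exact hx1 (hy2.mpr hy1)

theorem main : False := by
  obtain ⟨φ, hφ, hlim⟩ : ∃ φ ∈ Set.Icc (0 : ℝ) 1, Tendsto fr (V : Filter ℕ) (𝓝 φ) := by
    have := isCompact_Icc.ultrafilter_le_nhds (s := Set.Icc (0 : ℝ) 1) (V.map fr) (by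
      rw [Filter.le_principal_iff]
      show ∀ᶠ x in (V : Filter ℕ), fr x ∈ Set.Icc (0 : ℝ) 1
      exact Filter.Eventually.of_forall (fun x => ⟨fr_nonneg x, (fr_lt_one x).le⟩))
    exact this
  rcases eq_or_lt_of_le hφ.1 with h0 | h0
  · rcases V.em (fun x => fr x = 0) with h1 | h1
    · exact not_pow V hV h h1
    · exact not_plus V hV h (by rw [h0]; exact hlim) h1
  · rcases eq_or_lt_of_le hφ.2 with h1 | h1
    · exact not_minus V hV h (by rw [← h1]; exact hlim)
    · by_cases hall : ∀ p : ℕ, p.Prime →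
          ∀ᶠ x in (V : Filter ℕ), ∀ᶠ y in (V : Filter ℕ), p * x ∣ y
      · exact not_all V hV h hall
      · push Not at hall
        obtain ⟨p, hp, hn⟩ := hall
        exact not_mid V hV h hlim h0 h1 hp hn

end main

/-- There are a number `r` and a colouring `c` of the positive integers with `r` colours such that
for every infinite set `H` (monochromatic or not) and every colour `j` some pair `x < y` in `H`
admits no `z, t` of colour `j` with `-x + y = z` and `y = t * x`. -/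
theorem diffRatio : ∃ (r : ℕ) (c : ℕ+ → Fin r), ∀ H : Set ℕ+, H.Infinite → ∀ j : Fin r,
    ∃ x ∈ H, ∃ y ∈ H, x < y ∧
      ¬ ∃ z t : ℕ+, c z = j ∧ c t = j ∧ -(x : ℤ) + (y : ℤ) = (z : ℤ) ∧ y = t * x := by
  classical
  refine ⟨Fintype.card (Prop × Prop × Prop × Prop × Prop),
    fun n => Fintype.equivFin (Prop × Prop × Prop × Prop × Prop) (col (n : ℕ)), ?_⟩
  intro H hH j
  by_contra hcon
  push Not at hcon
  have hinj : Function.Injective (fun n : ℕ+ => (n : ℕ)) := PNat.coe_injective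
  have hH' : ((fun n : ℕ+ => (n : ℕ)) '' H).Infinite := hH.image hinj.injOn
  have hne : (cofinite ⊓ 𝓟 ((fun n : ℕ+ => (n : ℕ)) '' H)).NeBot :=
    hH'.cofinite_inf_principal_neBot
  set V : Ultrafilter ℕ := Ultrafilter.of (cofinite ⊓ 𝓟 ((fun n : ℕ+ => (n : ℕ)) '' H)) with hVdef
  have hVle : (V : Filter ℕ) ≤ cofinite ⊓ 𝓟 ((fun n : ℕ+ => (n : ℕ)) '' H) := Ultrafilter.of_le _
  have hV1 : (V : Filter ℕ) ≤ cofinite := le_trans hVle inf_le_left
  have hV2 : (V : Filter ℕ) ≤ 𝓟 ((fun n : ℕ+ => (n : ℕ)) '' H) := le_trans hVle inf_le_right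
  have hV : ∀ N, ∀ᶠ x in (V : Filter ℕ), N < x := by
    intro N
    apply hV1
    rw [Nat.cofinite_eq_atTop]
    exact eventually_gt_atTop N
  have hmem : ∀ᶠ x in (V : Filter ℕ), x ∈ (fun n : ℕ+ => (n : ℕ)) '' H :=
    Filter.le_principal_iff.mp hV2
  refine main V hV ?_
  filter_upwards [hmem] with x hx
  filter_upwards [hmem, hV x] with y hy hxy
  obtain ⟨a, ha, rfl⟩ := hx
  obtain ⟨b, hb, rfl⟩ := hy
  have hab : a < b := by exact_mod_cast hxy
  obtain ⟨z, t, hz, ht, h1, h2⟩ := hcon a ha b hb hab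
  have hb' : (b : ℕ) = t * a := by rw [h2]; rfl
  have hza : (z : ℕ) = (b : ℕ) - (a : ℕ) := by
    have : ((z : ℕ) : ℤ) = (b : ℕ) - (a : ℕ) := by
      linarith
    omega
  refine ⟨⟨t, by show (b : ℕ) = (a : ℕ) * t; rw [hb']; ring⟩, ?_⟩
  have hta : (b : ℕ) / (a : ℕ) = t := by
    rw [hb', Nat.mul_div_cancel _ a.pos]
  show col ((b : ℕ) - (a : ℕ)) = col ((b : ℕ) / (a : ℕ))
  rw [← hza, hta]
  exact (Fintype.equivFin (Prop × Prop × Prop × Prop × Prop)).injective (hz.trans ht.symm)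

end MP94.KTwo
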