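import Pool.Agent.W_MP_94ebd3_co.Phase

/-!
# The graph `{xy, y - x}` over the pairs with `D y` tiny with respect to `x` is 2-colourable

Helper file for MP_94ebd3_co, case `k = 1`.  The lower endpoint of the edge with label `x` and
`y = m + x` is `m = y - x`, the upper endpoint is `x * (m + x) = x * y`.
-/

set_option autoImplicit false

namespace MP94

open Filter Topology

/-- Size bound for the coefficients in components of the graph with labels at most `z`. -/
def bb (z : ℕ) : ℕ := (z + 2) ^ 5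

/-- Size bound for fractions. -/
def NN (z : ℕ) : ℕ := (2 * bb z) ^ 2

theorem add_two_le_bb (z : ℕ) : z + 2 ≤ bb z := by
  unfold bb
  exact Nat.le_self_pow (by norm_num) _

theorem bb_mono {z w : ℕ} (h : z ≤ w) : bb z ≤ bb w := by
  unfold bb
  exact Nat.pow_le_pow_left (by omega) 5

theorem one_le_bb (z : ℕ) : 1 ≤ bb z := by
  have := add_two_le_bb z
  omega

theorem sq_le_NN {x z : ℕ} (h : x ≤ 2 * bb z) : x * x ≤ NN z := by
  unfold NN
  rw [← pow_two]
  exact Nat.pow_le_pow_left h 2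

theorem add_two_sq_le_NN (z : ℕ) : (z + 2) * (z + 2) ≤ NN z :=
  sq_le_NN (by have := add_two_le_bb z; omega)

/-- Threshold beyond which `log ((m + τ) / (m + X))` is negligible. -/
noncomputable def MM (X : ℕ) : ℕ :=
  Classical.choose (exists_big X (NN X) (ε := nu (NN X) / 4) (by have := nu_pos (NN X); linarith))

theorem MM_spec (X : ℕ) : ∀ m : ℕ, MM X ≤ m → ∀ τ : ℝ, |τ| ≤ (NN X : ℕ) →
      0 < (m : ℝ) + τ ∧ |L (((m : ℝ) + τ) / (m + X))| < nu (NN X) / 4 :=
  Classical.choose_spec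
    (exists_big X (NN X) (ε := nu (NN X) / 4) (by have := nu_pos (NN X); linarith))

/-- The function `δ`. -/
noncomputable def del (X : ℕ) : ℝ := min (nu (NN X) / 4) (nu (MM X + X))

theorem del_pos (X : ℕ) : 0 < del X :=
  lt_min (by have := nu_pos (NN X); linarith) (nu_pos _)

theorem del_le (X : ℕ) : del X ≤ nu (NN X) / 4 := min_le_left _ _

theorem MM_le {X m : ℕ} (hX : 2 ≤ X) (h : D ((m : ℝ) + X) < del X) : MM X ≤ m := by
  by_contra hlt
  push Not at hlt
  have h1 : nu (MM X + X) ≤ D (((m + X : ℕ) : ℝ) / ((1 : ℕ) : ℝ)) :=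
    nu_le (by omega) (by omega) le_rfl (by omega) (by omega)
  have h2 : del X ≤ nu (MM X + X) := min_le_right _ _
  rw [Nat.cast_one, div_one, Nat.cast_add] at h1
  linarith

theorem key {X z m A B S : ℕ} {τ t : ℝ} (hX : 2 ≤ X) (hm : D ((m : ℝ) + X) < del X)
    (hA : 1 ≤ A) (hAS : A ≤ S) (hB : 1 ≤ B) (hBS : B ≤ S) (hAB : A ≠ B)
    (hSX : S ≤ NN X) (hSz : S ≤ NN z) (hτ : |τ| ≤ (NN X : ℕ)) (ht : 0 < t) (hDt : D t < del z)
    (heq : (B : ℝ) * t = A * (m + τ)) : False := by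
  obtain ⟨hpos, hL⟩ := MM_spec X m (MM_le hX hm) τ hτ
  have hAr : (0 : ℝ) < A := by exact_mod_cast hA
  have hBr : (0 : ℝ) < B := by exact_mod_cast hB
  have hXr : (2 : ℝ) ≤ X := by exact_mod_cast hX
  have hmX : (0 : ℝ) < (m : ℝ) + X := by
    have : (0 : ℝ) ≤ m := Nat.cast_nonneg m
    linarith
  have h1 : (A : ℝ) / B = t / (m + τ) := by
    rw [div_eq_div_iff hBr.ne' hpos.ne']
    linarith
  have h2 : nu S ≤ D ((A : ℝ) / B) := nu_le hA hAS hB hBS hAB
  have h3 : D (t / (m + τ)) ≤ D t + D (m + τ) := D_div_le ht hpos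
  have h4 : D ((m : ℝ) + τ) ≤ D (m + X) + |L (((m : ℝ) + τ) / (m + X))| := D_le_add hpos hmX
  have h5 := nu_anti hSX
  have h6 := nu_anti hSz
  have h7 := del_le X
  have h8 := del_le z
  have h9 := nu_pos S
  rw [h1] at h2
  linarith

/-- `ψ x` is the largest `z` with `2 (z+2)^5 < x`. -/
noncomputable def psi (x : ℕ) : ℕ := Nat.findGreatest (fun z => 2 * bb z < x) x

theorem psi_spec {x : ℕ} (hx : 100 ≤ x) : 2 * bb (psi x) < x := by
  have h0 : 2 * bb 0 < x := by norm_num [bb]; omega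
  exact Nat.findGreatest_spec (P := fun z => 2 * bb z < x) (Nat.zero_le x) h0

theorem psi_lt {x : ℕ} (hx : 100 ≤ x) : psi x < x := by
  have h1 := psi_spec hx
  have h2 := add_two_le_bb (psi x)
  omega

theorem le_of_psi_lt {x z : ℕ} (h : psi x < z) : x ≤ 2 * bb z := by
  by_cases hz : z ≤ x
  · have := Nat.findGreatest_is_greatest (P := fun z => 2 * bb z < x) h hz
    simpa using this
  · have := add_two_le_bb z
    omega

/-- The edge with label `x`, lower endpoint `m`, upper endpoint `n`. -/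
def Ed (x m n : ℕ) : Prop := 100 ≤ x ∧ D ((m : ℝ) + x) < del x ∧ n = x * (m + x)

/-- Adjacency in the graph with labels at most `X`. -/
def Adj (X u v : ℕ) : Prop := ∃ x, x ≤ X ∧ (Ed x u v ∨ Ed x v u)

/-- Connectedness in the graph with labels at most `X`. -/
def Reach (X : ℕ) : ℕ → ℕ → Prop := Relation.ReflTransGen (Adj X)

theorem Adj.symm {X u v : ℕ} (h : Adj X u v) : Adj X v u := by
  obtain ⟨x, hx, h⟩ := h
  exact ⟨x, hx, h.symm⟩

theorem Reach.symm {X u v : ℕ} (h : Reach X u v) : Reach X v u := by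
  induction h with
  | refl => exact Relation.ReflTransGen.refl
  | tail _ h2 ih => exact Relation.ReflTransGen.head h2.symm ih

theorem Reach.trans {X u v w : ℕ} (h : Reach X u v) (h' : Reach X v w) : Reach X u w :=
  Relation.ReflTransGen.trans h h'

theorem root {X z m w : ℕ} (hX : 100 ≤ X) (hm : D ((m : ℝ) + X) < del X) (hz : 100 ≤ z)
    (hzX : z ≤ X) (hw : D ((w : ℝ) + z) < del z) (h : m = z * (w + z)) : False := by
  have h1 : z ≤ NN z := by
    have := add_two_sq_le_NN z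
    nlinarith
  have h2 : z ≤ NN X := by
    have := add_two_sq_le_NN X
    nlinarith
  refine key (A := 1) (B := z) (S := z) (z := z) (τ := 0) (t := (w : ℝ) + z) (by omega) hm
    le_rfl (by omega) (by omega) le_rfl (by omega) h2 h1 (by simp) ?_ hw ?_
  · have : (100 : ℝ) ≤ z := by exact_mod_cast hz
    have : (0 : ℝ) ≤ w := Nat.cast_nonneg w
    linarith
  · rw [h]; push_cast; ring

theorem up {X z m x u P Q : ℕ} {e : ℤ} (hX : 100 ≤ X) (hm : D ((m : ℝ) + X) < del X)
    (hx : 100 ≤ x) (hxX : x ≤ X) (hz : 100 ≤ z) (hzX : z ≤ X) (hxz : x ≤ 2 * bb z)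
    (hP : 1 ≤ P) (hPx : 2 * P < x) (hQ : 1 ≤ Q) (hQx : 2 * Q < x) (he : 2 * |e| < x)
    (heq : (Q : ℤ) * u = P * (x * (m + x)) + e) (hu : D ((u : ℝ) + z) < del z) : False := by
  have hPr : (1 : ℝ) ≤ P := by exact_mod_cast hP
  have hxr : (100 : ℝ) ≤ x := by exact_mod_cast hx
  have hzr : (100 : ℝ) ≤ z := by exact_mod_cast hz
  have hxXr : (x : ℝ) ≤ X := by exact_mod_cast hxX
  have hzXr : (z : ℝ) ≤ X := by exact_mod_cast hzX
  have hQxr : 2 * (Q : ℝ) ≤ x := by exact_mod_cast hQx.le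
  have hQr : (1 : ℝ) ≤ Q := by exact_mod_cast hQ
  have her : 2 * |(e : ℝ)| ≤ x := by exact_mod_cast he.le
  have hPx0 : (0 : ℝ) < (P : ℝ) * x := by positivity
  have hPxx : (x : ℝ) ≤ (P : ℝ) * x := by nlinarith
  have heqr : (Q : ℝ) * u = P * (x * (m + x)) + e := by exact_mod_cast heq
  refine key (A := P * x) (B := Q) (S := x * x) (z := z)
    (τ := x + ((e : ℝ) + Q * z) / (P * x)) (t := (u : ℝ) + z) (by omega) hm
    (by nlinarith) (by nlinarith) hQ (by nlinarith) (by nlinarith)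
    (sq_le_NN (by have := add_two_le_bb X; omega)) (sq_le_NN hxz) ?_ ?_ hu ?_
  · have h1 : |((e : ℝ) + Q * z) / (P * x)| ≤ 1 + z := by
      rw [abs_div, abs_of_pos hPx0, div_le_iff₀ hPx0]
      have h2 : |(e : ℝ) + Q * z| ≤ |(e : ℝ)| + Q * z := by
        refine (abs_add_le _ _).trans ?_
        rw [abs_of_nonneg (show (0 : ℝ) ≤ Q * z by positivity)]
      nlinarith
    have h3 : ((X : ℝ) + 2) * (X + 2) ≤ (NN X : ℕ) := by exact_mod_cast add_two_sq_le_NN X
    calc |(x : ℝ) + ((e : ℝ) + Q * z) / (P * x)| ≤ |(x : ℝ)| + |((e : ℝ) + Q * z) / (P * x)| :=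
          abs_add_le _ _
      _ ≤ x + (1 + z) := by rw [abs_of_pos (by linarith : (0 : ℝ) < x)]; linarith
      _ ≤ (NN X : ℕ) := by nlinarith
  · have : (0 : ℝ) ≤ u := Nat.cast_nonneg u
    linarith
  · push_cast
    field_simp
    linarith

theorem down {X z m x u w P Q : ℕ} {e : ℤ} (hX : 100 ≤ X) (hm : D ((m : ℝ) + X) < del X)
    (hx : 100 ≤ x) (hxX : x ≤ X) (hz : 100 ≤ z) (hzX : z ≤ X) (hxz : x ≤ 2 * bb z)
    (hP : 1 ≤ P) (hPx : 2 * P < x) (hQ : 1 ≤ Q) (hQx : 2 * Q < x) (he : 2 * |e| < x)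
    (heq : (Q : ℤ) * u = P * (x * (m + x)) + e) (hne : x * (m + x) ≠ u → e ≠ 0)
    (hu : u = z * (w + z)) (hw : D ((w : ℝ) + z) < del z) : z = x ∧ w = m := by
  have hPr : (1 : ℝ) ≤ P := by exact_mod_cast hP
  have hxr : (100 : ℝ) ≤ x := by exact_mod_cast hx
  have hxXr : (x : ℝ) ≤ X := by exact_mod_cast hxX
  have her : 2 * |(e : ℝ)| ≤ x := by exact_mod_cast he.le
  have hPx0 : (0 : ℝ) < (P : ℝ) * x := by positivity
  have hPxx : (x : ℝ) ≤ (P : ℝ) * x := by nlinarith
  have heqr : (Q : ℝ) * u = P * (x * (m + x)) + e := by exact_mod_cast heq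
  by_cases hAB : P * x = Q * z
  · -- the translations agree
    have h1 : (P : ℤ) * x * ((w + z : ℕ) - (m + x : ℕ)) = e := by
      have hABz : (P : ℤ) * x = Q * z := by exact_mod_cast hAB
      rw [hu] at heq
      push_cast at heq ⊢
      linear_combination heq + ((w : ℤ) + z) * hABz
    have h2 : ((w + z : ℕ) : ℤ) - (m + x : ℕ) = 0 := by
      by_contra hne0
      have h3 : 1 ≤ |((w + z : ℕ) : ℤ) - (m + x : ℕ)| := Int.one_le_abs hne0
      have h4 : |e| = (P : ℤ) * x * |((w + z : ℕ) : ℤ) - (m + x : ℕ)| := by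
        rw [← h1, abs_mul, abs_of_nonneg (by positivity : (0 : ℤ) ≤ (P : ℤ) * x)]
      have h5 : (x : ℤ) ≤ (P : ℤ) * x := by
        have : (1 : ℤ) ≤ P := by exact_mod_cast hP
        nlinarith
      nlinarith
    have h3 : e = 0 := by rw [← h1, h2, mul_zero]
    have h4 : w + z = m + x := by omega
    have h5 : x * (m + x) = u := by
      by_contra hc
      exact hne hc h3
    rw [hu, h4] at h5
    have h6 : x = z := Nat.eq_of_mul_eq_mul_right (by omega) h5
    exact ⟨h6.symm, by omega⟩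
  · exfalso
    have hS1 : P * x ≤ max x z * max x z :=
      Nat.mul_le_mul ((by omega : P ≤ x).trans (le_max_left _ _)) (le_max_left _ _)
    have hS2 : Q * z ≤ max x z * max x z :=
      Nat.mul_le_mul ((by omega : Q ≤ x).trans (le_max_left _ _)) (le_max_right _ _)
    refine key (A := P * x) (B := Q * z) (S := max x z * max x z) (z := z)
      (τ := x + (e : ℝ) / (P * x)) (t := (w : ℝ) + z) (by omega) hm
      (by nlinarith) hS1 (by nlinarith) hS2 hAB
      (sq_le_NN (by have := add_two_le_bb X; omega))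
      (sq_le_NN (by have := add_two_le_bb z; omega)) ?_ ?_ hw ?_
    · have h1 : |(e : ℝ) / (P * x)| ≤ 1 := by
        rw [abs_div, abs_of_pos hPx0, div_le_iff₀ hPx0]
        nlinarith [abs_nonneg (e : ℝ)]
      have h3 : ((X : ℝ) + 2) * (X + 2) ≤ (NN X : ℕ) := by exact_mod_cast add_two_sq_le_NN X
      calc |(x : ℝ) + (e : ℝ) / (P * x)| ≤ |(x : ℝ)| + |(e : ℝ) / (P * x)| := abs_add_le _ _
        _ ≤ x + 1 := by rw [abs_of_pos (by linarith : (0 : ℝ) < x)]; linarith
        _ ≤ (NN X : ℕ) := by nlinarith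
    · have h1 : (100 : ℝ) ≤ z := by exact_mod_cast hz
      have h2 : (0 : ℝ) ≤ w := Nat.cast_nonneg w
      linarith
    · have hur : (u : ℝ) = z * (w + z) := by rw [hu]; push_cast; ring
      rw [hur] at heqr
      push_cast
      field_simp
      linarith

/-- Any two connected vertices satisfy an affine relation with small coefficients. -/
def QQ (X : ℕ) : Prop := ∀ u v, Reach X u v → ∃ (P Q : ℕ) (e : ℤ), 1 ≤ P ∧ P ≤ bb X ∧
  1 ≤ Q ∧ Q ≤ bb X ∧ |e| ≤ bb X ∧ (Q : ℤ) * v = P * u + e ∧ (u ≠ v → e ≠ 0)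

/-- The data of a vertex in the branch with label `x` at `m`. -/
theorem branch {x m u : ℕ} (hx : 100 ≤ x) (hQ : QQ (psi x)) (h : Reach (psi x) (x * (m + x)) u) :
    ∃ (P Q : ℕ) (e : ℤ), 1 ≤ P ∧ 2 * P < x ∧ 1 ≤ Q ∧ 2 * Q < x ∧ 2 * |e| < x ∧
      (Q : ℤ) * u = P * (x * (m + x)) + e ∧ (x * (m + x) ≠ u → e ≠ 0) := by
  obtain ⟨P, Q, e, hP, hPb, hQ1, hQb, he, heq, hne⟩ := hQ _ _ h
  have h1 := psi_spec hx
  refine ⟨P, Q, e, hP, by omega, hQ1, by omega, by omega, ?_, hne⟩
  rw [heq]; push_cast; ring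

theorem closing {X Y m v : ℕ} (hX : 100 ≤ X) (hm : D ((m : ℝ) + X) < del X) (hY : Y ≤ X)
    (hQ : ∀ Z < X, QQ Z) (h : Reach Y m v) :
    v = m ∨ ∃ x, 100 ≤ x ∧ x ≤ Y ∧ D ((m : ℝ) + x) < del x ∧ Reach (psi x) (x * (m + x)) v := by
  induction h with
  | refl => exact Or.inl rfl
  | @tail u v _ huv ih =>
    obtain ⟨z, hzY, hE⟩ := huv
    rcases ih with hum | ⟨x, hx, hxY, hmx, hr⟩
    · subst hum
      rcases hE with ⟨hz, hD, hv⟩ | ⟨hz, hD, hv⟩
      · exact Or.inr ⟨z, hz, hzY, hD, by rw [hv]; exact Relation.ReflTransGen.refl⟩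
      · exact (root hX hm hz (hzY.trans hY) hD hv).elim
    · by_cases hzx : z ≤ psi x
      · exact Or.inr ⟨x, hx, hxY, hmx, hr.tail ⟨z, hzx, hE⟩⟩
      · push Not at hzx
        have hxz := le_of_psi_lt hzx
        obtain ⟨P, Q, e, hP, hPx, hQ1, hQx, he, heq, hne⟩ :=
          branch hx (hQ (psi x) ((psi_lt hx).trans_le (hxY.trans hY))) hr
        rcases hE with ⟨hz, hD, hv⟩ | ⟨hz, hD, hv⟩
        · exact (up hX hm hx (hxY.trans hY) hz (hzY.trans hY) hxz hP hPx hQ1 hQx he heq hD).elim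
        · exact Or.inl (down hX hm hx (hxY.trans hY) hz (hzY.trans hY) hxz hP hPx hQ1 hQx he heq
            hne hv hD).2

theorem Reach.mono {X Y u v : ℕ} (hXY : X ≤ Y) (h : Reach X u v) : Reach Y u v := by
  induction h with
  | refl => exact Relation.ReflTransGen.refl
  | tail _ h2 ih =>
    obtain ⟨x, hx, hE⟩ := h2
    exact Relation.ReflTransGen.tail ih ⟨x, hx.trans hXY, hE⟩

theorem split {X u v : ℕ} (h : Reach X u v) : Reach (X - 1) u v ∨
    ∃ m : ℕ, 100 ≤ X ∧ D ((m : ℝ) + X) < del X ∧ Reach X m u ∧ Reach X m v := by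
  induction h with
  | refl => exact Or.inl Relation.ReflTransGen.refl
  | @tail w v huw hwv ih =>
    rcases ih with h1 | ⟨m, hX, hm, hmu, hmw⟩
    · obtain ⟨x, hx, hE⟩ := hwv
      by_cases hxX : x ≤ X - 1
      · exact Or.inl (Relation.ReflTransGen.tail h1 ⟨x, hxX, hE⟩)
      · right
        have hE' := hE
        have hadj : Adj X w v := ⟨x, hx, hE⟩
        rcases hE' with ⟨hx100, hD, -⟩ | ⟨hx100, hD, -⟩
        · have hxe : x = X := by omega
          rw [hxe] at hD hx100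
          exact ⟨w, hx100, hD, Reach.symm huw, Relation.ReflTransGen.single hadj⟩
        · have hxe : x = X := by omega
          rw [hxe] at hD hx100
          exact ⟨v, hx100, hD,
            Relation.ReflTransGen.trans (Relation.ReflTransGen.single hadj.symm) (Reach.symm huw),
            Relation.ReflTransGen.refl⟩
    · exact Or.inr ⟨m, hX, hm, hmu, Relation.ReflTransGen.tail hmw hwv⟩

theorem eq_of_reach_small {X u v : ℕ} (hX : X < 100) (h : Reach X u v) : u = v := by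
  induction h with
  | refl => rfl
  | tail _ h2 _ =>
    exfalso
    obtain ⟨x, hx, hE⟩ := h2
    rcases hE with ⟨h, -⟩ | ⟨h, -⟩ <;> omega

theorem pow_bound (X : ℕ) : X ^ 5 ≤ bb X := by
  unfold bb
  exact Nat.pow_le_pow_left (by omega) 5

/-- Relation between the root `m` and a vertex of the branch `y`. -/
theorem combine_root {X y m v P Q : ℕ} {e : ℤ} (hy : 100 ≤ y) (hyX : y ≤ X)
    (hP : 1 ≤ P) (hPy : 2 * P < y) (hQ : 1 ≤ Q) (hQy : 2 * Q < y) (he : 2 * |e| < y)
    (heq : (Q : ℤ) * v = P * (y * (m + y)) + e) :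
    1 ≤ P * y ∧ P * y ≤ bb X ∧ 1 ≤ Q ∧ Q ≤ bb X ∧ |(P : ℤ) * y * y + e| ≤ bb X ∧
      (Q : ℤ) * v = ((P * y : ℕ) : ℤ) * m + (P * y * y + e) ∧ (P : ℤ) * y * y + e ≠ 0 := by
  have hX : 100 ≤ X := by omega
  have hb := pow_bound X
  have hXX : X ^ 3 ≤ X ^ 5 := Nat.pow_le_pow_right (by omega) (by norm_num)
  have hX1 : X ≤ X ^ 5 := Nat.le_self_pow (by norm_num) X
  have hX2 : X * X ≤ X ^ 3 := by
    calc X * X = X ^ 2 := by ring
      _ ≤ X ^ 3 := Nat.pow_le_pow_right (by omega) (by norm_num)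
  have hPyb : P * y ≤ X * X := Nat.mul_le_mul (by omega) hyX
  have hPyy : 2 * (P * y * y) ≤ X ^ 3 := by
    calc 2 * (P * y * y) = (2 * P) * y * y := by ring
      _ ≤ X * X * X := Nat.mul_le_mul (Nat.mul_le_mul (by omega) hyX) hyX
      _ = X ^ 3 := by ring
  have hX3 : X ≤ X ^ 3 := Nat.le_self_pow (by norm_num) X
  have hPyy' : y * y ≤ P * y * y := by
    rw [mul_assoc]; exact Nat.le_mul_of_pos_left _ hP
  have hyy : y ≤ y * y := Nat.le_mul_self y
  have h1 : (0 : ℤ) < (P : ℤ) * y * y + e := by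
    have h2 : (y : ℤ) * y ≤ (P : ℤ) * y * y := by exact_mod_cast hPyy'
    have h3 : (y : ℤ) ≤ y * y := by exact_mod_cast hyy
    have h4 := neg_abs_le e
    have h5 : (100 : ℤ) ≤ y := by exact_mod_cast hy
    linarith
  refine ⟨Nat.mul_pos hP (by omega), by omega, hQ, by omega, ?_, ?_, h1.ne'⟩
  · rw [abs_of_pos h1]
    have h2 : 2 * ((P : ℤ) * y * y) ≤ (X : ℤ) ^ 3 := by exact_mod_cast hPyy
    have h3 : (X : ℤ) ^ 3 ≤ (X : ℤ) ^ 5 := by exact_mod_cast hXX
    have h4 : (X : ℤ) ^ 5 ≤ bb X := by exact_mod_cast hb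
    have h5 := le_abs_self e
    have h6 : (y : ℤ) ≤ X := by exact_mod_cast hyX
    have h7 : (X : ℤ) ≤ X ^ 3 := by exact_mod_cast hX3
    linarith
  · rw [heq]; push_cast; ring

/-- Relation between vertices of two different branches. -/
theorem combine_two {X x y m u v P Q P' Q' : ℕ} {e e' : ℤ} (hxy : x ≠ y)
    (hx : 100 ≤ x) (hxX : x ≤ X) (hy : 100 ≤ y) (hyX : y ≤ X)
    (hP : 1 ≤ P) (hPx : 2 * P < x) (hQ : 1 ≤ Q) (hQx : 2 * Q < x) (he : 2 * |e| < x)
    (hP' : 1 ≤ P') (hPy : 2 * P' < y) (hQ' : 1 ≤ Q') (hQy : 2 * Q' < y) (he' : 2 * |e'| < y)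
    (heq : (Q : ℤ) * u = P * (x * (m + x)) + e) (heq' : (Q' : ℤ) * v = P' * (y * (m + y)) + e') :
    ∃ (A B : ℕ) (f : ℤ), 1 ≤ A ∧ A ≤ bb X ∧ 1 ≤ B ∧ B ≤ bb X ∧ |f| ≤ bb X ∧
      (B : ℤ) * v = A * u + f ∧ f ≠ 0 := by
  have hb := pow_bound X
  have hX : 100 ≤ X := by omega
  have hXX : X ^ 3 ≤ X ^ 5 := Nat.pow_le_pow_right (by omega) (by norm_num)
  have hA : P' * y * Q ≤ X ^ 3 := by
    calc P' * y * Q ≤ X * X * X := Nat.mul_le_mul (Nat.mul_le_mul (by omega) hyX) (by omega)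
      _ = X ^ 3 := by ring
  have hB : P * x * Q' ≤ X ^ 3 := by
    calc P * x * Q' ≤ X * X * X := Nat.mul_le_mul (Nat.mul_le_mul (by omega) hxX) (by omega)
      _ = X ^ 3 := by ring
  have ha2 : 2 * ((P : ℤ) * x) ≤ (X : ℤ) ^ 2 := by
    have : 2 * (P * x) ≤ X ^ 2 := by
      calc 2 * (P * x) = (2 * P) * x := by ring
        _ ≤ X * X := Nat.mul_le_mul (by omega) hxX
        _ = X ^ 2 := by ring
    exact_mod_cast this
  have hb2 : 2 * ((P' : ℤ) * y) ≤ (X : ℤ) ^ 2 := by
    have : 2 * (P' * y) ≤ X ^ 2 := by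
      calc 2 * (P' * y) = (2 * P') * y := by ring
        _ ≤ X * X := Nat.mul_le_mul (by omega) hyX
        _ = X ^ 2 := by ring
    exact_mod_cast this
  have ha1 : (x : ℤ) ≤ (P : ℤ) * x := by
    have : x ≤ P * x := Nat.le_mul_of_pos_left _ hP
    exact_mod_cast this
  have hb1 : (y : ℤ) ≤ (P' : ℤ) * y := by
    have : y ≤ P' * y := Nat.le_mul_of_pos_left _ hP'
    exact_mod_cast this
  have hx0 : (100 : ℤ) ≤ x := by exact_mod_cast hx
  have hy0 : (100 : ℤ) ≤ y := by exact_mod_cast hy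
  have hX0 : (100 : ℤ) ≤ X := by exact_mod_cast hX
  have hxXz : (x : ℤ) ≤ X := by exact_mod_cast hxX
  have hyXz : (y : ℤ) ≤ X := by exact_mod_cast hyX
  generalize ha : (P : ℤ) * x = a at *
  generalize hbb : (P' : ℤ) * y = b at *
  have ha0 : 0 < a := by linarith
  have hb0 : 0 < b := by linarith
  refine ⟨P' * y * Q, P * x * Q', a * b * ((y : ℤ) - x) + a * e' - b * e,
    Nat.mul_pos (Nat.mul_pos hP' (by omega)) hQ, by omega,
    Nat.mul_pos (Nat.mul_pos hP (by omega)) hQ', by omega, ?_, ?_, ?_⟩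
  · have h1 : |a * b * ((y : ℤ) - x)| ≤ a * b * X := by
      rw [abs_mul, abs_of_pos (mul_pos ha0 hb0)]
      refine mul_le_mul_of_nonneg_left ?_ (mul_pos ha0 hb0).le
      rw [abs_le]; constructor <;> linarith
    have h2 : |a * e'| ≤ a * X := by
      rw [abs_mul, abs_of_pos ha0]
      exact mul_le_mul_of_nonneg_left (by linarith [abs_nonneg e']) ha0.le
    have h3 : |b * e| ≤ b * X := by
      rw [abs_mul, abs_of_pos hb0]
      exact mul_le_mul_of_nonneg_left (by linarith [abs_nonneg e]) hb0.le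
    have h4 : |a * b * ((y : ℤ) - x) + a * e' - b * e| ≤
        |a * b * ((y : ℤ) - x)| + |a * e'| + |b * e| := by
      refine (abs_sub _ _).trans ?_
      linarith [abs_add_le (a * b * ((y : ℤ) - x)) (a * e')]
    have h5 : 4 * (a * b) ≤ (X : ℤ) ^ 4 := by
      have := mul_le_mul ha2 hb2 (by positivity) (by positivity)
      nlinarith
    have h6 : 4 * (a * b * X) ≤ (X : ℤ) ^ 5 := by nlinarith
    have h7 : 2 * (a * X) ≤ (X : ℤ) ^ 3 := by nlinarith
    have h8 : 2 * (b * X) ≤ (X : ℤ) ^ 3 := by nlinarith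
    have h9 : (X : ℤ) ^ 5 ≤ bb X := by exact_mod_cast hb
    have h10 : 4 * (X : ℤ) ^ 3 ≤ (X : ℤ) ^ 5 := by
      have : (4 : ℤ) ≤ (X : ℤ) ^ 2 := by nlinarith
      calc 4 * (X : ℤ) ^ 3 ≤ (X : ℤ) ^ 2 * (X : ℤ) ^ 3 :=
            mul_le_mul_of_nonneg_right this (by positivity)
        _ = (X : ℤ) ^ 5 := by ring
    linarith
  · push_cast
    rw [← ha, ← hbb]
    linear_combination (P : ℤ) * x * heq' - (P' : ℤ) * y * heq
  · intro h0
    have h1 : |a * b * ((y : ℤ) - x)| = |b * e - a * e'| := by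
      congr 1; linarith
    have h2 : a * b ≤ |a * b * ((y : ℤ) - x)| := by
      rw [abs_mul, abs_of_pos (mul_pos ha0 hb0)]
      have : 1 ≤ |(y : ℤ) - x| := Int.one_le_abs (sub_ne_zero.mpr (by exact_mod_cast hxy.symm))
      nlinarith [mul_pos ha0 hb0]
    have h3 : |b * e - a * e'| ≤ b * |e| + a * |e'| := by
      refine (abs_sub _ _).trans ?_
      rw [abs_mul, abs_mul, abs_of_pos ha0, abs_of_pos hb0]
    have h4 : 2 * (b * |e|) < b * a := by nlinarith
    have h5 : 2 * (a * |e'|) < a * b := by nlinarith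
    nlinarith

theorem QQ_all (X : ℕ) : QQ X := by
  induction X using Nat.strong_induction_on with
  | _ X ih =>
  intro u v h
  by_cases hX : 100 ≤ X
  · rcases split h with h1 | ⟨m, -, hm, hmu, hmv⟩
    · obtain ⟨P, Q, e, hP, hPb, hQ1, hQb, he, heq, hne⟩ := ih (X - 1) (by omega) u v h1
      have hb := bb_mono (show X - 1 ≤ X by omega)
      exact ⟨P, Q, e, hP, hPb.trans hb, hQ1, hQb.trans hb, he.trans (by exact_mod_cast hb),
        heq, hne⟩
    · rcases closing hX hm le_rfl ih hmu with hu | ⟨x, hx, hxX, hmx, hru⟩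
      · rcases closing hX hm le_rfl ih hmv with hv | ⟨y, hy, hyX, hmy, hrv⟩
        · -- both are the root
          rw [hu, hv]
          exact ⟨1, 1, 0, le_rfl, one_le_bb X, le_rfl, one_le_bb X, by simp, by simp,
            fun h => (h rfl).elim⟩
        · -- `u = m`, `v` in the branch `y`
          obtain ⟨P, Q, e, hP, hPy, hQ1, hQy, he, heq, hne⟩ :=
            branch hy (ih (psi y) ((psi_lt hy).trans_le hyX)) hrv
          obtain ⟨h1, h2, h3, h4, h5, h6, h7⟩ :=
            combine_root hy hyX hP hPy hQ1 hQy he heq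
          rw [hu]
          exact ⟨P * y, Q, _, h1, h2, h3, h4, h5, h6, fun _ => h7⟩
      · obtain ⟨P, Q, e, hP, hPx, hQ1, hQx, he, heq, hne⟩ :=
          branch hx (ih (psi x) ((psi_lt hx).trans_le hxX)) hru
        rcases closing hX hm le_rfl ih hmv with hv | ⟨y, hy, hyX, hmy, hrv⟩
        · -- `v = m`, `u` in the branch `x`
          obtain ⟨h1, h2, h3, h4, h5, h6, h7⟩ :=
            combine_root hx hxX hP hPx hQ1 hQx he heq
          rw [hv]
          refine ⟨Q, P * x, -((P : ℤ) * x * x + e), h3, h4, h1, h2, ?_, ?_, fun _ => ?_⟩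
          · rw [abs_neg]; exact h5
          · linarith
          · exact neg_ne_zero.mpr h7
        · by_cases hxy : x = y
          · -- the same branch
            subst hxy
            obtain ⟨P, Q, e, hP, hPb, hQ1, hQb, he, heq, hne⟩ :=
              ih (psi x) ((psi_lt hx).trans_le hxX) u v (hru.symm.trans hrv)
            have hb := bb_mono (show psi x ≤ X by have := psi_lt hx; omega)
            exact ⟨P, Q, e, hP, hPb.trans hb, hQ1, hQb.trans hb,
              he.trans (by exact_mod_cast hb), heq, hne⟩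
          · obtain ⟨P', Q', e', hP', hPy, hQ1', hQy, he', heq', hne'⟩ :=
              branch hy (ih (psi y) ((psi_lt hy).trans_le hyX)) hrv
            obtain ⟨A, B, f, h1, h2, h3, h4, h5, h6, h7⟩ := combine_two hxy hx hxX hy hyX
              hP hPx hQ1 hQx he hP' hPy hQ1' hQy he' heq heq'
            exact ⟨A, B, f, h1, h2, h3, h4, h5, h6, fun _ => h7⟩
  · have huv := eq_of_reach_small (by omega) h
    rw [huv]
    exact ⟨1, 1, 0, le_rfl, one_le_bb X, le_rfl, one_le_bb X, by simp, by simp,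
      fun h => (h rfl).elim⟩

theorem AB {X m v : ℕ} (hX : 100 ≤ X) (hm : D ((m : ℝ) + X) < del X) (h : Reach (X - 1) m v) :
    (D ((v : ℝ) + X) < del X → v = m) ∧
      ∀ w : ℕ, D ((w : ℝ) + X) < del X → v ≠ X * (w + X) := by
  rcases closing hX hm (Nat.sub_le X 1) (fun Z _ => QQ_all Z) h with hv | ⟨x, hx, hxX, hmx, hr⟩
  · subst hv
    exact ⟨fun _ => rfl, fun w hw hv => root hX hm hX le_rfl hw hv⟩
  · obtain ⟨P, Q, e, hP, hPx, hQ1, hQx, he, heq, hne⟩ := branch hx (QQ_all _) hr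
    have hxz : x ≤ 2 * bb X := le_of_psi_lt ((psi_lt hx).trans (by omega))
    constructor
    · intro hD
      exact (up hX hm hx (by omega) hX le_rfl hxz hP hPx hQ1 hQx he heq hD).elim
    · intro w hw hv
      have := (down hX hm hx (by omega) hX le_rfl hxz hP hPx hQ1 hQx he heq hne hv hw).1
      omega

theorem exists_col (X : ℕ) : ∃ c : ℕ → Bool, ∀ u v, Adj X u v → c u ≠ c v := by
  classical
  induction X with
  | zero =>
    refine ⟨fun _ => true, fun u v h => ?_⟩
    exfalso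
    obtain ⟨x, hx, hE⟩ := h
    rcases hE with ⟨h, -⟩ | ⟨h, -⟩ <;> omega
  | succ X ih =>
    obtain ⟨c, hc⟩ := ih
    let F : ℕ → Prop := fun v => ∃ m : ℕ, 100 ≤ X + 1 ∧ D ((m : ℝ) + (X + 1 : ℕ)) < del (X + 1) ∧
      Reach X m v ∧ c m = c ((X + 1) * (m + (X + 1)))
    have hedge : ∀ m n : ℕ, Ed (X + 1) m n →
        (if F m then !c m else c m) ≠ (if F n then !c n else c n) := by
      rintro m n ⟨hX, hD, hn⟩
      have hFn : ¬ F n := by
        rintro ⟨m', -, hm', hr, -⟩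
        exact (AB hX hm' hr).2 m hD hn
      rw [if_neg hFn]
      by_cases hcm : c m = c n
      · have hFm : F m := ⟨m, hX, hD, Relation.ReflTransGen.refl, by rw [hcm, hn]⟩
        rw [if_pos hFm, hcm]
        simp
      · have hFm : ¬ F m := by
          rintro ⟨m', -, hm', hr, hc'⟩
          have := (AB hX hm' hr).1 hD
          rw [← this, ← hn] at hc'
          exact hcm hc'
        rw [if_neg hFm]
        exact hcm
    refine ⟨fun v => if F v then !c v else c v, fun u v huv => ?_⟩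
    obtain ⟨x, hx, hE⟩ := huv
    by_cases hxX : x ≤ X
    · have hadj : Adj X u v := ⟨x, hxX, hE⟩
      have hF : F u ↔ F v := by
        constructor
        · rintro ⟨m, h1, h2, h3, h4⟩
          exact ⟨m, h1, h2, h3.tail hadj, h4⟩
        · rintro ⟨m, h1, h2, h3, h4⟩
          exact ⟨m, h1, h2, h3.tail hadj.symm, h4⟩
      have hcuv := hc u v hadj
      by_cases hFu : F u
      · simp only [if_pos hFu, if_pos (hF.mp hFu)]
        simpa using hcuv
      · simp only [if_neg hFu, if_neg (fun h => hFu (hF.mpr h))]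
        exact hcuv
    · have hxe : x = X + 1 := by omega
      rw [hxe] at hE
      rcases hE with hE | hE
      · exact hedge u v hE
      · exact (hedge v u hE).symm

/-- The whole graph is 2-colourable. -/
theorem exists_coloring : ∃ c : ℕ → Bool, ∀ x m : ℕ, 100 ≤ x → D ((m : ℝ) + x) < del x →
    c (x * (m + x)) ≠ c m := by
  classical
  choose cc hcc using exists_col
  let U : Ultrafilter ℕ := hyperfilter ℕ
  refine ⟨fun n => decide (∀ᶠ X in (U : Filter ℕ), cc X n = true), fun x m hx hD => ?_⟩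
  have hne : ∀ᶠ X in (U : Filter ℕ), cc X m ≠ cc X (x * (m + x)) := by
    have h1 : ∀ᶠ X : ℕ in atTop, x ≤ X := eventually_ge_atTop x
    have h2 : ∀ᶠ X : ℕ in (U : Filter ℕ), x ≤ X := by
      rw [← Nat.cofinite_eq_atTop] at h1
      exact h1.filter_mono hyperfilter_le_cofinite
    exact h2.mono fun X hX => hcc X _ _ ⟨x, hX, Or.inl ⟨hx, hD, rfl⟩⟩
  intro heq
  have heq' : (∀ᶠ X in (U : Filter ℕ), cc X (x * (m + x)) = true) ↔
      (∀ᶠ X in (U : Filter ℕ), cc X m = true) := by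
    simpa using heq
  by_cases h : ∀ᶠ X in (U : Filter ℕ), cc X m = true
  · obtain ⟨X, h1, h2, h3⟩ := (hne.and (h.and (heq'.mpr h))).exists
    exact h1 (h2.trans h3.symm)
  · have h' : ¬ ∀ᶠ X in (U : Filter ℕ), cc X (x * (m + x)) = true := fun hh => h (heq'.mp hh)
    have h1 := Ultrafilter.eventually_not.mpr h
    have h2 := Ultrafilter.eventually_not.mpr h'
    obtain ⟨X, h3, h4, h5⟩ := (hne.and (h1.and h2)).exists
    simp only [Bool.not_eq_true] at h4 h5
    exact h3 (h4.trans h5.symm)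

end MP94
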