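import Pool.Agent.W_MP_94ebd3_co.Forest

/-!
# `-x + y = z`, `x y = t` is not Ramsey partition regular

Helper file for MP_94ebd3_co: the colouring with `8 * 4 * 2 = 64` colours.
-/

set_option autoImplicit false

namespace MP94

open Filter Topology

/-- The arc of length `1/8` containing `log_β n` modulo `1`. -/
noncomputable def c1 (n : ℕ) : ZMod 8 := ((⌊8 * L n⌋ : ℤ) : ZMod 8)

/-- The size of the distance of `log_β n` to the integers, modulo `4` on a logarithmic scale. -/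
noncomputable def c2 (n : ℕ) : ZMod 4 := ((Int.log 2 (D n ^ 2) : ℤ) : ZMod 4)

theorem c1_eq {a b : ℝ} (h : ((⌊8 * a⌋ : ℤ) : ZMod 8) = ((⌊8 * b⌋ : ℤ) : ZMod 8)) :
    DI (a - b) ≤ 1 / 8 := by
  obtain ⟨k, hk⟩ := (ZMod.intCast_eq_intCast_iff_dvd_sub _ _ 8).mp h
  refine (DI_le (a - b) (-k)).trans ?_
  have hk' : (⌊8 * b⌋ : ℝ) - ⌊8 * a⌋ = 8 * k := by exact_mod_cast hk
  have h1 := Int.floor_le (8 * a)
  have h2 := Int.lt_floor_add_one (8 * a)
  have h3 := Int.floor_le (8 * b)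
  have h4 := Int.lt_floor_add_one (8 * b)
  push_cast
  rw [abs_le]
  constructor <;> linarith

theorem c2_ne {a d : ℝ} (ha : 0 < a) (h1 : 2 * a < d) (h2 : d < 8 * a) :
    ((Int.log 2 d : ℤ) : ZMod 4) ≠ ((Int.log 2 a : ℤ) : ZMod 4) := by
  have hd : 0 < d := by linarith
  have h3 : Int.log 2 a + 1 ≤ Int.log 2 d := by
    rw [← Int.zpow_le_iff_le_log (by norm_num) hd]
    have := Int.zpow_log_le_self (b := 2) (by norm_num) ha
    rw [zpow_add₀ (by norm_num)]
    push_cast at this ⊢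
    linarith
  have h4 : Int.log 2 d < Int.log 2 a + 4 := by
    rw [← Int.lt_zpow_iff_log_lt (by norm_num) hd]
    have := Int.lt_zpow_succ_log_self (b := 2) (by norm_num) a
    rw [zpow_add₀ (by norm_num)] at this ⊢
    push_cast at this ⊢
    norm_num at this ⊢
    linarith
  intro h
  obtain ⟨k, hk⟩ := (ZMod.intCast_eq_intCast_iff_dvd_sub _ _ 4).mp h
  push_cast at hk
  omega

theorem L_sub {x y : ℕ} (h : x < y) :
    L ((y - x : ℕ) : ℝ) = L y + L (1 - (x : ℝ) / y) := by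
  have hy : (0 : ℝ) < y := by
    have : 0 < y := by omega
    exact_mod_cast this
  have hxy : (x : ℝ) < y := by exact_mod_cast h
  have h1 : (0 : ℝ) < 1 - (x : ℝ) / y := by
    rw [sub_pos, div_lt_one hy]; exact hxy
  rw [← L_mul hy h1, Nat.cast_sub h.le]
  congr 1
  field_simp

theorem tendsto_eps (x : ℕ) : Tendsto (fun y : ℕ => L (1 - (x : ℝ) / y)) atTop (𝓝 0) := by
  have h1 : Tendsto (fun y : ℕ => 1 - (x : ℝ) / y) atTop (𝓝 1) := by
    have := (tendsto_const_nhds (x := (1 : ℝ)) (f := (atTop : Filter ℕ))).sub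
      (tendsto_const_div_atTop_nhds_zero_nat (x : ℝ))
    simpa using this
  have h2 := L_continuousAt.tendsto.comp h1
  rw [L_one] at h2
  exact h2

/-- The signed distance to the nearest integer. -/
noncomputable def sg (n : ℕ) : ℝ := L n - round (L n)

theorem abs_sg (n : ℕ) : |sg n| = D n := rfl

theorem DI_L_add (n : ℕ) (ε : ℝ) : DI (L n + ε) = DI (sg n + ε) := by
  have : L n + ε = (sg n + ε) + (round (L n) : ℤ) := by unfold sg; ring
  rw [this, DI_add_int]

theorem main (V : Ultrafilter ℕ) (hV : (V : Filter ℕ) ≤ atTop) (c : ℕ → Bool)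
    (hc : ∀ x m : ℕ, 100 ≤ x → D ((m : ℝ) + x) < del x → c (x * (m + x)) ≠ c m)
    (h : ∀ᶠ x in (V : Filter ℕ), ∀ᶠ y in (V : Filter ℕ),
      c1 (x * y) = c1 (y - x) ∧ c2 (x * y) = c2 (y - x) ∧ c (x * y) = c (y - x)) : False := by
  have hlarge : ∀ N : ℕ, ∀ᶠ x in (V : Filter ℕ), N < x := fun N => hV (eventually_gt_atTop N)
  have heps : ∀ x : ℕ, Tendsto (fun y : ℕ => L (1 - (x : ℝ) / y)) (V : Filter ℕ) (𝓝 0) :=
    fun x => (tendsto_eps x).mono_left hV
  -- the limit of the signed distances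
  obtain ⟨lam, -, hlam⟩ : ∃ lam ∈ Set.Icc (-(1 / 2) : ℝ) (1 / 2),
      Tendsto sg (V : Filter ℕ) (𝓝 lam) := by
    have := isCompact_Icc.ultrafilter_le_nhds (s := Set.Icc (-(1 / 2) : ℝ) (1 / 2)) (V.map sg) (by
      rw [Filter.le_principal_iff]
      show ∀ᶠ x in (V : Filter ℕ), sg x ∈ Set.Icc (-(1 / 2) : ℝ) (1 / 2)
      refine Filter.Eventually.of_forall fun x => ?_
      have := abs_sub_round (L x)
      rw [abs_le] at this
      exact ⟨this.1, this.2⟩)
    exact this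
  have hD : Tendsto (fun n : ℕ => D n) (V : Filter ℕ) (𝓝 |lam|) := by
    have := hlam.abs
    simpa only [abs_sg] using this
  -- the distances are small
  have hsmall : ∀ᶠ x : ℕ in (V : Filter ℕ), D x ≤ 1 / 8 := by
    filter_upwards [h, hlarge 0] with x hx hx0
    have hx0r : (0 : ℝ) < x := by exact_mod_cast hx0
    have h1 : ∀ᶠ y : ℕ in (V : Filter ℕ), DI (L x - L (1 - (x : ℝ) / y)) ≤ 1 / 8 := by
      filter_upwards [hx, hlarge x] with y hy hxy
      have hy0r : (0 : ℝ) < y := by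
        have : 0 < y := by omega
        exact_mod_cast this
      have h2 := c1_eq hy.1
      rw [L_sub hxy] at h2
      push_cast at h2
      rw [L_mul hx0r hy0r] at h2
      have h3 : L x + L y - (L y + L (1 - (x : ℝ) / y)) = L x - L (1 - (x : ℝ) / y) := by ring
      rwa [h3] at h2
    have h2 : Tendsto (fun y : ℕ => DI (L x - L (1 - (x : ℝ) / y))) (V : Filter ℕ)
        (𝓝 (DI (L x - 0))) :=
      (DI_continuous.tendsto _).comp (tendsto_const_nhds.sub (heps x))
    rw [sub_zero] at h2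
    exact le_of_tendsto h2 h1
  have hlam8 : |lam| ≤ 1 / 8 := le_of_tendsto hD hsmall
  by_cases hl0 : lam = 0
  · -- the distances tend to zero: use the 2-colouring of the graph
    rw [hl0, abs_zero] at hD
    obtain ⟨x, hx, hx100⟩ := (h.and (hlarge 100)).exists
    have hy1 : ∀ᶠ y : ℕ in (V : Filter ℕ), D y < del x := hD.eventually (gt_mem_nhds (del_pos x))
    obtain ⟨y, ⟨hy, hy2⟩, hxy⟩ := ((hx.and hy1).and (hlarge x)).exists
    have h1 : (y - x) + x = y := by omega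
    have h2 : D (((y - x : ℕ) : ℝ) + x) < del x := by
      rw [← Nat.cast_add, h1]; exact hy2
    have h3 := hc x (y - x) hx100.le h2
    rw [h1] at h3
    exact h3 hy.2.2
  · -- the limit of the distances is positive: use the logarithmic scale
    have hl2 : 0 < lam ^ 2 := by positivity
    have hx1 : ∀ᶠ x in (V : Filter ℕ), 2 * lam ^ 2 < (sg x + lam) ^ 2 := by
      have h1 : Tendsto (fun x => (sg x + lam) ^ 2) (V : Filter ℕ) (𝓝 ((lam + lam) ^ 2)) :=
        (hlam.add_const lam).pow 2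
      exact h1.eventually (lt_mem_nhds (by nlinarith))
    have hx2 : ∀ᶠ x in (V : Filter ℕ), (sg x + lam) ^ 2 < 8 * lam ^ 2 := by
      have h1 : Tendsto (fun x => (sg x + lam) ^ 2) (V : Filter ℕ) (𝓝 ((lam + lam) ^ 2)) :=
        (hlam.add_const lam).pow 2
      exact h1.eventually (gt_mem_nhds (by nlinarith))
    obtain ⟨x, ⟨⟨⟨hx, hxs⟩, hx1⟩, hx2⟩, hx0⟩ :=
      ((((h.and hsmall).and hx1).and hx2).and (hlarge 0)).exists
    have hx0r : (0 : ℝ) < x := by exact_mod_cast hx0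
    have hsx : |sg x + lam| < 1 / 2 := by
      refine (abs_add_le _ _).trans_lt ?_
      rw [abs_sg]; linarith
    have hlim1 : Tendsto (fun y : ℕ => DI (sg x + sg y)) (V : Filter ℕ) (𝓝 |sg x + lam|) := by
      rw [← DI_eq_abs _ hsx]
      exact (DI_continuous.tendsto _).comp (tendsto_const_nhds.add hlam)
    have hlim2 : Tendsto (fun y : ℕ => DI (sg y + L (1 - (x : ℝ) / y))) (V : Filter ℕ)
        (𝓝 |lam|) := by
      have h1 : |lam + 0| < 1 / 2 := by rw [add_zero]; linarith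
      have h2 : |lam| = DI (lam + 0) := by rw [DI_eq_abs _ h1, add_zero]
      rw [h2]
      exact (DI_continuous.tendsto _).comp (hlam.add (heps x))
    have hlim3 := hlim1.pow 2
    have hlim4 := hlim2.pow 2
    rw [sq_abs] at hlim3 hlim4
    have hev1 : ∀ᶠ y : ℕ in (V : Filter ℕ),
        2 * DI (sg y + L (1 - (x : ℝ) / y)) ^ 2 < DI (sg x + sg y) ^ 2 :=
      (hlim4.const_mul 2).eventually_lt hlim3 hx1
    have hev2 : ∀ᶠ y : ℕ in (V : Filter ℕ),
        DI (sg x + sg y) ^ 2 < 8 * DI (sg y + L (1 - (x : ℝ) / y)) ^ 2 :=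
      hlim3.eventually_lt (hlim4.const_mul 8) hx2
    have hev3 : ∀ᶠ y : ℕ in (V : Filter ℕ), 0 < DI (sg y + L (1 - (x : ℝ) / y)) ^ 2 :=
      hlim4.eventually (lt_mem_nhds hl2)
    obtain ⟨y, ⟨⟨⟨hy, hy1⟩, hy2⟩, hy3⟩, hxy⟩ :=
      ((((hx.and hev1).and hev2).and hev3).and (hlarge x)).exists
    have hy0r : (0 : ℝ) < y := by
      have : 0 < y := by omega
      exact_mod_cast this
    have e1 : D ((x * y : ℕ) : ℝ) = DI (sg x + sg y) := by
      unfold D
      push_cast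
      rw [L_mul hx0r hy0r, DI_L_add, add_comm (sg x) (L y), DI_L_add, add_comm (sg y) (sg x)]
    have e2 : D ((y - x : ℕ) : ℝ) = DI (sg y + L (1 - (x : ℝ) / y)) := by
      unfold D
      rw [L_sub hxy, DI_L_add]
    have h5 := hy.2.1
    unfold c2 at h5
    rw [e1, e2] at h5
    exact c2_ne hy3 hy1 hy2 h5

/-- There are a number `r` and a colouring `c` of the positive integers with `r` colours such that
for every infinite set `H` (monochromatic or not) and every colour `j` some pair `x < y` in `H`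
admits no `z, t` of colour `j` with `-x + y = z` and `x * y = t`. -/
theorem diffProd : ∃ (r : ℕ) (c : ℕ+ → Fin r), ∀ H : Set ℕ+, H.Infinite → ∀ j : Fin r,
    ∃ x ∈ H, ∃ y ∈ H, x < y ∧
      ¬ ∃ z t : ℕ+, c z = j ∧ c t = j ∧ -(x : ℤ) + (y : ℤ) = (z : ℤ) ∧ x * y = t := by
  classical
  obtain ⟨c, hc⟩ := exists_coloring
  refine ⟨Fintype.card (ZMod 8 × ZMod 4 × Bool),
    fun n => Fintype.equivFin (ZMod 8 × ZMod 4 × Bool) (c1 n, c2 n, c n), ?_⟩
  intro H hH j
  by_contra hcon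
  push Not at hcon
  have hinj : Function.Injective (fun n : ℕ+ => (n : ℕ)) := PNat.coe_injective
  have hH' : ((fun n : ℕ+ => (n : ℕ)) '' H).Infinite := hH.image hinj.injOn
  have hne : (cofinite ⊓ 𝓟 ((fun n : ℕ+ => (n : ℕ)) '' H)).NeBot :=
    hH'.cofinite_inf_principal_neBot
  set V : Ultrafilter ℕ := Ultrafilter.of (cofinite ⊓ 𝓟 ((fun n : ℕ+ => (n : ℕ)) '' H)) with hVdef
  have hVle : (V : Filter ℕ) ≤ cofinite ⊓ 𝓟 ((fun n : ℕ+ => (n : ℕ)) '' H) := Ultrafilter.of_le _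
  have hV1 : (V : Filter ℕ) ≤ atTop := by
    rw [← Nat.cofinite_eq_atTop]
    exact le_trans hVle inf_le_left
  have hV2 : (V : Filter ℕ) ≤ 𝓟 ((fun n : ℕ+ => (n : ℕ)) '' H) := le_trans hVle inf_le_right
  have hmem : ∀ᶠ x in (V : Filter ℕ), x ∈ (fun n : ℕ+ => (n : ℕ)) '' H :=
    Filter.le_principal_iff.mp hV2
  refine main V hV1 c hc ?_
  filter_upwards [hmem] with x hx
  filter_upwards [hmem, hV1 (eventually_gt_atTop x)] with y hy hxy
  obtain ⟨a, ha, rfl⟩ := hx
  obtain ⟨b, hb, rfl⟩ := hy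
  have hab : a < b := by exact_mod_cast hxy
  obtain ⟨z, t, hz, ht, h1, h2⟩ := hcon a ha b hb hab
  have hta : (a : ℕ) * (b : ℕ) = t := by rw [← h2]; rfl
  have hza : (b : ℕ) - (a : ℕ) = z := by
    have : ((z : ℕ) : ℤ) = (b : ℕ) - (a : ℕ) := by
      linarith
    omega
  have hzt := (Fintype.equivFin (ZMod 8 × ZMod 4 × Bool)).injective (ht.trans hz.symm)
  show c1 ((a : ℕ) * (b : ℕ)) = c1 ((b : ℕ) - (a : ℕ)) ∧
    c2 ((a : ℕ) * (b : ℕ)) = c2 ((b : ℕ) - (a : ℕ)) ∧
    c ((a : ℕ) * (b : ℕ)) = c ((b : ℕ) - (a : ℕ))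
  rw [hta, hza]
  simpa only [Prod.mk.injEq] using hzt

end MP94
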