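import Mathlib

/-!
# Distance of `log_β n` to the integers, `β = 1 + √2`

Helper file for MP_94ebd3_co, case `k = 1` (difference and product).
-/

set_option autoImplicit false

namespace MP94

open Filter Topology

/-- The base `β = 1 + √2`. -/
noncomputable def bet : ℝ := 1 + Real.sqrt 2

/-- Distance of a real number to the nearest integer. -/
noncomputable def DI (t : ℝ) : ℝ := |t - round t|

/-- Logarithm to the base `β`. -/
noncomputable def L (a : ℝ) : ℝ := Real.logb bet a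

/-- Distance of `log_β a` to the integers. -/
noncomputable def D (a : ℝ) : ℝ := DI (L a)

theorem one_lt_bet : 1 < bet := by
  unfold bet
  have : 0 < Real.sqrt 2 := by positivity
  linarith

theorem DI_nonneg (t : ℝ) : 0 ≤ DI t := abs_nonneg _

theorem DI_le (t : ℝ) (k : ℤ) : DI t ≤ |t - k| := round_le t k

theorem DI_sub_le (s t : ℝ) : DI (s - t) ≤ DI s + DI t := by
  have h := DI_le (s - t) (round s - round t)
  refine h.trans ?_
  have : s - t - ((round s - round t : ℤ) : ℝ) = (s - round s) - (t - round t) := by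
    push_cast; ring
  rw [this]
  exact abs_sub _ _

theorem DI_add_le (s t : ℝ) : DI (s + t) ≤ DI s + DI t := by
  have h := DI_le (s + t) (round s + round t)
  refine h.trans ?_
  have : s + t - ((round s + round t : ℤ) : ℝ) = (s - round s) + (t - round t) := by
    push_cast; ring
  rw [this]
  exact abs_add_le _ _

theorem DI_le_add (s t : ℝ) : DI s ≤ DI t + |s - t| := by
  refine (DI_le s (round t)).trans ?_
  have : s - (round t : ℝ) = (t - round t) + (s - t) := by ring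
  rw [this]
  exact abs_add_le _ _

theorem DI_lip (s t : ℝ) : |DI s - DI t| ≤ |s - t| := by
  rw [abs_sub_le_iff]
  constructor
  · linarith [DI_le_add s t]
  · have := DI_le_add t s
    rw [abs_sub_comm t s] at this
    linarith

theorem DI_continuous : Continuous DI := by
  have : LipschitzWith 1 DI := LipschitzWith.of_dist_le_mul fun s t => by
    simpa [Real.dist_eq] using DI_lip s t
  exact this.continuous

theorem DI_add_int (t : ℝ) (k : ℤ) : DI (t + k) = DI t := by
  unfold DI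
  rw [round_add_intCast]
  congr 1
  push_cast; ring

theorem DI_eq_abs (t : ℝ) (h : |t| < 1 / 2) : DI t = |t| := by
  unfold DI
  have : round t = 0 := by
    rw [round_eq_zero_iff]
    rw [abs_lt] at h
    constructor <;> linarith [h.1, h.2]
  rw [this]; simp

theorem L_mul {a b : ℝ} (ha : 0 < a) (hb : 0 < b) : L (a * b) = L a + L b :=
  Real.logb_mul ha.ne' hb.ne'

theorem L_div {a b : ℝ} (ha : 0 < a) (hb : 0 < b) : L (a / b) = L a - L b :=
  Real.logb_div ha.ne' hb.ne'

theorem D_nonneg (a : ℝ) : 0 ≤ D a := DI_nonneg _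

theorem D_div_le {a b : ℝ} (ha : 0 < a) (hb : 0 < b) : D (a / b) ≤ D a + D b := by
  unfold D
  rw [L_div ha hb]
  exact DI_sub_le _ _

theorem D_le_add {a b : ℝ} (ha : 0 < a) (hb : 0 < b) : D a ≤ D b + |L (a / b)| := by
  unfold D
  rw [L_div ha hb]
  exact DI_le_add _ _

theorem bet_pow (n : ℕ) : ∃ a b : ℕ, 1 ≤ b ∧ bet ^ (n + 1) = a + b * Real.sqrt 2 := by
  induction n with
  | zero => exact ⟨1, 1, le_rfl, by simp [bet]⟩
  | succ n ih =>
    obtain ⟨a, b, hb, h⟩ := ih
    refine ⟨a + 2 * b, a + b, by omega, ?_⟩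
    rw [pow_succ, h, bet]
    have h2 : Real.sqrt 2 * Real.sqrt 2 = 2 := Real.mul_self_sqrt (by norm_num)
    push_cast
    linear_combination (b : ℝ) * h2

theorem bet_pow_ne (n P Q : ℕ) : bet ^ (n + 1) ≠ (P : ℝ) / Q := by
  obtain ⟨a, b, hb, h⟩ := bet_pow n
  rw [h]
  have hirr : Irrational ((a : ℝ) + b * Real.sqrt 2) :=
    (irrational_sqrt_two.natCast_mul (by omega)).natCast_add a
  intro hc
  exact hirr ⟨(P : ℚ) / Q, by rw [hc]; push_cast; rfl⟩

theorem D_pos {P Q : ℕ} (hP : 1 ≤ P) (hQ : 1 ≤ Q) (h : P ≠ Q) : 0 < D ((P : ℝ) / Q) := by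
  rcases (D_nonneg ((P : ℝ) / Q)).lt_or_eq with h0 | h0
  · exact h0
  exfalso
  have hPr : (0 : ℝ) < P := by exact_mod_cast hP
  have hQr : (0 : ℝ) < Q := by exact_mod_cast hQ
  have h1 : L ((P : ℝ) / Q) = (round (L ((P : ℝ) / Q)) : ℝ) := by
    have := abs_eq_zero.mp h0.symm
    linarith
  set k := round (L ((P : ℝ) / Q)) with hk
  have h2 : bet ^ k = (P : ℝ) / Q := by
    rw [← Real.rpow_intCast, ← h1]
    exact Real.rpow_logb (by linarith [one_lt_bet]) one_lt_bet.ne' (div_pos hPr hQr)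
  rcases lt_trichotomy k 0 with hk0 | hk0 | hk0
  · obtain ⟨n, hn⟩ : ∃ n : ℕ, k = -((n : ℤ) + 1) := ⟨(-k - 1).toNat, by omega⟩
    apply bet_pow_ne n Q P
    rw [hn, zpow_neg] at h2
    have h3 : bet ^ ((n : ℤ) + 1) = bet ^ (n + 1) := by
      exact_mod_cast zpow_natCast bet (n + 1)
    rw [h3] at h2
    rw [← inv_inv (bet ^ (n + 1)), h2, inv_div]
  · rw [hk0, zpow_zero, eq_comm, div_eq_one_iff_eq hQr.ne'] at h2
    exact h (by exact_mod_cast h2)
  · obtain ⟨n, hn⟩ : ∃ n : ℕ, k = (n : ℤ) + 1 := ⟨(k - 1).toNat, by omega⟩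
    apply bet_pow_ne n P Q
    rw [hn] at h2
    have h3 : bet ^ ((n : ℤ) + 1) = bet ^ (n + 1) := by
      exact_mod_cast zpow_natCast bet (n + 1)
    rw [← h3, h2]

theorem box_nonempty (B : ℕ) :
    (Finset.Icc 1 (B + 1) ×ˢ Finset.Icc 1 (B + 1)).Nonempty := ⟨(1, 1), by simp⟩

/-- Lower bound for `D` on fractions with numerator and denominator at most `B`. -/
noncomputable def nu (B : ℕ) : ℝ :=
  (Finset.Icc 1 (B + 1) ×ˢ Finset.Icc 1 (B + 1)).inf' (box_nonempty B)
    (fun p => if p.1 = p.2 then (1 : ℝ) else D ((p.1 : ℝ) / p.2))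

theorem nu_pos (B : ℕ) : 0 < nu B := by
  unfold nu
  refine (Finset.lt_inf'_iff _).mpr ?_
  rintro ⟨p, q⟩ hpq
  simp only [Finset.mem_product, Finset.mem_Icc] at hpq
  dsimp only
  split_ifs with h
  · exact one_pos
  · exact D_pos hpq.1.1 hpq.2.1 h

theorem nu_le {B P Q : ℕ} (hP : 1 ≤ P) (hPB : P ≤ B) (hQ : 1 ≤ Q) (hQB : Q ≤ B) (h : P ≠ Q) :
    nu B ≤ D ((P : ℝ) / Q) := by
  unfold nu
  have hmem : (P, Q) ∈ Finset.Icc 1 (B + 1) ×ˢ Finset.Icc 1 (B + 1) := by
    simp only [Finset.mem_product, Finset.mem_Icc]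
    omega
  refine (Finset.inf'_le _ hmem).trans ?_
  rw [if_neg h]

theorem nu_anti {B B' : ℕ} (h : B ≤ B') : nu B' ≤ nu B := by
  unfold nu
  apply Finset.inf'_mono
  apply Finset.product_subset_product <;>
  exact Finset.Icc_subset_Icc le_rfl (by omega)

theorem L_continuousAt : ContinuousAt L 1 := by
  unfold L Real.logb
  exact (Real.continuousAt_log one_ne_zero).div_const _

theorem L_one : L 1 = 0 := Real.logb_one

theorem exists_big (X T : ℕ) {ε : ℝ} (hε : 0 < ε) :
    ∃ M : ℕ, ∀ m : ℕ, M ≤ m → ∀ τ : ℝ, |τ| ≤ T →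
      0 < (m : ℝ) + τ ∧ |L (((m : ℝ) + τ) / (m + X))| < ε := by
  obtain ⟨η, hη, hL⟩ := Metric.continuousAt_iff.mp L_continuousAt ε hε
  obtain ⟨K, hK⟩ := exists_nat_gt (((T : ℝ) + X) / η)
  refine ⟨max (T + 1) (K + 1), fun m hm τ hτ => ?_⟩
  have hmT : (T : ℝ) + 1 ≤ m := by exact_mod_cast (le_max_left _ _).trans hm
  have hmK : (K : ℝ) + 1 ≤ m := by exact_mod_cast (le_max_right _ _).trans hm
  have hX0 : (0 : ℝ) ≤ X := Nat.cast_nonneg X
  have hT0 : (0 : ℝ) ≤ T := Nat.cast_nonneg T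
  rw [abs_le] at hτ
  have hmpos : (0 : ℝ) < m := by linarith
  refine ⟨by linarith [hτ.1], ?_⟩
  have hden : (0 : ℝ) < m + X := by linarith
  have h1 : dist (((m : ℝ) + τ) / (m + X)) 1 < η := by
    rw [Real.dist_eq]
    have : ((m : ℝ) + τ) / (m + X) - 1 = (τ - X) / (m + X) := by
      field_simp; ring
    rw [this, abs_div, abs_of_pos hden, div_lt_iff₀ hden]
    have h2 : |τ - X| ≤ T + X := by
      rw [abs_le]; constructor <;> linarith [hτ.1, hτ.2]
    have h3 : (T : ℝ) + X < η * m := by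
      rw [div_lt_iff₀ hη] at hK
      nlinarith
    nlinarith
  have h2 := hL h1
  rwa [L_one, Real.dist_eq, sub_zero] at h2

end MP94
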